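import Pool.Agent.P8H6.Irr.Sup

/-!
# Bohr sets
-/

set_option autoImplicit false

namespace Pool.Agent.P8H6.Irr

open Finset Filter Topology
open Pool.Agent.TH112.BL (Bd)
open Pool.Agent.Y958.TC

/-- the hypothesis: the products with all the phases `j α`, `j ≠ 0`, are small outside `E` -/
def NoPh (F : ℕ → ℝ) (α : ℝ) (E : Set ℕ) : Prop :=
  ∀ j : ℤ, j ≠ 0 → ∀ θ : ℝ, (θ = 0 ∨ θ = -(1 / 4)) → ∀ ε : ℝ, 0 < ε →
    ∃ N₀ : ℕ, ∀ N : ℕ, N₀ ≤ N → N ∉ E → |∑ n ∈ range N, F n * ph θ (j * α * n)| ≤ ε * N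

open scoped Classical in
/-- the indicator of a cell -/
noncomputable def cl (W : ℕ) (α : ℝ) (j n : ℕ) : ℝ := if ⌊W * α * (n : ℝ)⌋₊ % W = j then 1 else 0

lemma cl_nonneg (W : ℕ) (α : ℝ) (j n : ℕ) : 0 ≤ cl W α j n := by
  unfold cl; split_ifs <;> norm_num

lemma cl_le (W : ℕ) (α : ℝ) (j n : ℕ) : cl W α j n ≤ 1 := by
  unfold cl; split_ifs <;> norm_num

lemma cl_sum {W : ℕ} (hW : 1 ≤ W) (α : ℝ) (n : ℕ) : ∑ j ∈ range W, cl W α j n = 1 := by
  unfold cl
  rw [sum_ite_eq (range W) (⌊W * α * (n : ℝ)⌋₊ % W) (fun _ => (1 : ℝ)), if_pos]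
  exact mem_range.2 (Nat.mod_lt _ hW)

section mean

variable (μ : NM) (F : ℕ → ℝ) (hF : ∀ n, |F n| ≤ 1) (α : ℝ)

include hF in
lemma bdF (c : UnitAddCircle) (f : C(UnitAddCircle, ℂ)) :
    ∀ n : ℕ, ‖(F n : ℂ) * f (((α * n : ℝ) : UnitAddCircle) + c)‖ ≤ ‖f‖ := by
  intro n
  rw [norm_mul, Complex.norm_real, Real.norm_eq_abs]
  calc |F n| * ‖f (((α * n : ℝ) : UnitAddCircle) + c)‖ ≤ 1 * ‖f‖ :=
        mul_le_mul (hF n) (f.norm_coe_le_norm _) (norm_nonneg _) zero_le_one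
    _ = ‖f‖ := one_mul _

/-- the weighted mean along `α n + c` as a continuous linear functional -/
noncomputable def LF (c : UnitAddCircle) : C(UnitAddCircle, ℂ) →L[ℂ] ℂ :=
  LinearMap.mkContinuous
    { toFun := fun f => J3h460.mC μ (fun n => (F n : ℂ) * f (((α * n : ℝ) : UnitAddCircle) + c))
      map_add' := fun f g => by
        have := J3h460.mC_add μ ⟨_, bdF F hF α c f⟩ ⟨_, bdF F hF α c g⟩
        rw [← this]
        congr 1
        funext n
        rw [ContinuousMap.add_apply]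
        ring
      map_smul' := fun a f => by
        have := J3h460.mC_smul μ a ⟨_, bdF F hF α c f⟩
        rw [RingHom.id_apply, smul_eq_mul, ← this]
        congr 1
        funext n
        rw [ContinuousMap.smul_apply, smul_eq_mul]
        ring } 2 (fun f => J3h460.mC_norm_le μ (bdF F hF α c f))

lemma LF_apply (c : UnitAddCircle) (f : C(UnitAddCircle, ℂ)) :
    LF μ F hF α c f = J3h460.mC μ (fun n => (F n : ℂ) * f (((α * n : ℝ) : UnitAddCircle) + c)) := rfl

lemma fourier_val (z : ℤ) (n : ℕ) : (fourier z (((α * n : ℝ) : UnitAddCircle)) : ℂ) =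
    ((ph 0 (z * α * n) : ℝ) : ℂ) + ((ph (-(1 / 4)) (z * α * n) : ℝ) : ℂ) * Complex.I := by
  rw [fourier_coe_apply]
  unfold ph
  have h2 : Real.cos (2 * Real.pi * (z * α * n + -(1 / 4))) = Real.sin (2 * Real.pi * (z * α * n)) := by
    rw [show 2 * Real.pi * (z * α * n + -(1 / 4)) = 2 * Real.pi * (z * α * n) - Real.pi / 2 by ring,
      Real.cos_sub_pi_div_two]
  rw [h2, add_zero, Complex.ofReal_cos, Complex.ofReal_sin, ← Complex.exp_mul_I]
  congr 1
  push_cast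
  ring

lemma LF_eq (h : ∀ z : ℤ, z ≠ 0 → ∀ θ : ℝ, (θ = 0 ∨ θ = -(1 / 4)) → μ.m (fun n => F n * ph θ (z * α * n)) = 0)
    (c : UnitAddCircle) : LF μ F hF α c = LF μ F hF α 0 := by
  have key : (⊤ : Submodule ℂ C(UnitAddCircle, ℂ)) ≤ (LF μ F hF α c - LF μ F hF α 0).ker := by
    rw [← span_fourier_closure_eq_top]
    refine Submodule.topologicalClosure_minimal _ ?_ (ContinuousLinearMap.isClosed_ker _)
    rw [Submodule.span_le]
    rintro _ ⟨z, rfl⟩
    show (LF μ F hF α c - LF μ F hF α 0) (fourier z) = 0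
    rw [sub_apply, sub_eq_zero, LF_apply, LF_apply]
    have e1 : (fun n : ℕ => (F n : ℂ) * fourier z (((α * n : ℝ) : UnitAddCircle) + c)) =
        (fun n : ℕ => fourier z c * ((F n : ℂ) * fourier z ((α * n : ℝ) : UnitAddCircle))) := by
      funext n
      have e2 : fourier z (((α * n : ℝ) : UnitAddCircle) + c) =
          fourier z ((α * n : ℝ) : UnitAddCircle) * fourier z c := by
        rw [fourier_apply, fourier_apply, fourier_apply, smul_add, AddCircle.toCircle_add, Circle.coe_mul]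
      rw [e2]
      ring
    rw [e1]
    simp only [add_zero]
    have hb : J3h460.BdC (fun n : ℕ => (F n : ℂ) * fourier z ((α * n : ℝ) : UnitAddCircle)) := by
      refine ⟨‖(fourier z : C(UnitAddCircle, ℂ))‖, fun n => ?_⟩
      have := bdF F hF α 0 (fourier z) n
      simpa using this
    rw [J3h460.mC_smul μ _ hb]
    by_cases hz : z = 0
    · subst hz
      rw [fourier_zero, one_mul]
    · have e3 : J3h460.mC μ (fun n : ℕ => (F n : ℂ) * fourier z ((α * n : ℝ) : UnitAddCircle)) = 0 := by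
        unfold J3h460.mC
        have e4 : ∀ n : ℕ, (F n : ℂ) * fourier z ((α * n : ℝ) : UnitAddCircle) =
            ((F n * ph 0 (z * α * n) : ℝ) : ℂ) + ((F n * ph (-(1 / 4)) (z * α * n) : ℝ) : ℂ) * Complex.I := by
          intro n
          rw [fourier_val]
          push_cast
          ring
        have e5 : (fun n : ℕ => ((F n : ℂ) * fourier z ((α * n : ℝ) : UnitAddCircle)).re) =
            fun n => F n * ph 0 (z * α * n) := by
          funext n
          rw [e4]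
          simp
        have e6 : (fun n : ℕ => ((F n : ℂ) * fourier z ((α * n : ℝ) : UnitAddCircle)).im) =
            fun n => F n * ph (-(1 / 4)) (z * α * n) := by
          funext n
          rw [e4]
          simp
        rw [e5, e6, h z hz 0 (Or.inl rfl), h z hz _ (Or.inr rfl)]
        simp
      rw [e3, mul_zero]
  ext f
  have := key (Submodule.mem_top (x := f))
  have h2 : (LF μ F hF α c - LF μ F hF α 0) f = 0 := this
  rw [sub_apply, sub_eq_zero] at h2
  exact h2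

include hF in
/-- the mean over a cell -/
lemma cell_mean (h0 : 0 < α) (hα : Irrational α)
    (h : ∀ z : ℤ, z ≠ 0 → ∀ θ : ℝ, (θ = 0 ∨ θ = -(1 / 4)) → μ.m (fun n => F n * ph θ (z * α * n)) = 0)
    {W : ℕ} (hW : 1 ≤ W) {j : ℕ} (hj : j < W) :
    μ.m (fun n => F n * (cl W α j n - 1 / W)) = 0 := by
  classical
  have hbcl : ∀ j, Bd (fun n => F n * cl W α j n) := fun j => ⟨1, fun n => by
    rw [abs_mul, abs_of_nonneg (cl_nonneg _ _ _ _)]
    exact mul_le_one₀ (hF n) (cl_nonneg _ _ _ _) (cl_le _ _ _ _)⟩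
  have hW0 : (0 : ℝ) < W := by exact_mod_cast hW
  -- the trapezoids
  have hgg : ∀ δ : ℝ, ∀ j : ℕ, μ.m (fun n => F n * J3h460.gg W δ ((α * n - j / W : ℝ) : UnitAddCircle)) =
      μ.m (fun n => F n * J3h460.gg W δ ((α * n : ℝ) : UnitAddCircle)) := by
    intro δ j
    set g : C(UnitAddCircle, ℂ) := ⟨fun x => ((J3h460.gg W δ x : ℝ) : ℂ),
      Complex.continuous_ofReal.comp (J3h460.gg_cont W δ)⟩ with hg
    have h1 := congrArg (fun L => L g) (LF_eq μ F hF α h ((-(j / W) : ℝ) : UnitAddCircle))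
    simp only [LF_apply] at h1
    have e1 : (fun n : ℕ => (F n : ℂ) * g (((α * n : ℝ) : UnitAddCircle) + ((-(j / W) : ℝ) : UnitAddCircle))) =
        fun n : ℕ => ((F n * J3h460.gg W δ ((α * n - j / W : ℝ) : UnitAddCircle) : ℝ) : ℂ) := by
      funext n
      rw [← AddCircle.coe_add, ← sub_eq_add_neg]
      push_cast
      rfl
    have e2 : (fun n : ℕ => (F n : ℂ) * g (((α * n : ℝ) : UnitAddCircle) + 0)) =
        fun n : ℕ => ((F n * J3h460.gg W δ ((α * n : ℝ) : UnitAddCircle) : ℝ) : ℂ) := by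
      funext n
      rw [add_zero]
      push_cast
      rfl
    rw [e1, e2, J3h460.mC_ofReal, J3h460.mC_ofReal] at h1
    exact_mod_cast h1
  -- all the cells have the same mean
  have hsame : ∀ j < W, μ.m (fun n => F n * cl W α j n) = μ.m (fun n => F n * cl W α 0 n) := by
    intro j hj
    rw [← sub_eq_zero, ← abs_nonpos_iff]
    apply le_of_forall_pos_le_add
    intro ε hε
    rw [zero_add]
    obtain ⟨δ, hδ0, hδ⟩ : ∃ δ : ℝ, 0 < δ ∧ ∀ i ∈ range (W + 1),
        μ.m (fun n => if ‖((α * n - i / W : ℝ) : UnitAddCircle)‖ < δ then 1 else 0) ≤ ε / 4 := by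
      have h1 : ∀ᶠ δ in nhdsWithin (0 : ℝ) (Set.Ioi 0), ∀ i ∈ range (W + 1),
          μ.m (fun n => if ‖((α * n - i / W : ℝ) : UnitAddCircle)‖ < δ then 1 else 0) ≤ ε / 4 := by
        rw [Finset.eventually_all]
        intro i _
        exact J3h460.bm μ hα (i / W) (by positivity)
      obtain ⟨δ, h2, h3⟩ := (h1.and self_mem_nhdsWithin).exists
      exact ⟨δ, h3, h2⟩
    have hclose : ∀ j < W, |μ.m (fun n => F n * cl W α j n) -
        μ.m (fun n => F n * J3h460.gg W δ ((α * n - j / W : ℝ) : UnitAddCircle))| ≤ ε / 2 := by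
      intro j hj
      have hb1 : ∀ i : ℕ, Bd (fun n : ℕ => if ‖((α * n - i / W : ℝ) : UnitAddCircle)‖ < δ then (1 : ℝ) else 0) :=
        fun i => ⟨1, fun n => by dsimp only; split_ifs <;> norm_num⟩
      have hb2 : Bd (fun n => F n * J3h460.gg W δ ((α * n - j / W : ℝ) : UnitAddCircle)) := ⟨1, fun n => by
        rw [abs_mul, abs_of_nonneg (J3h460.gg_nonneg _ _ _)]
        exact mul_le_one₀ (hF n) (J3h460.gg_nonneg _ _ _) (J3h460.gg_le_one _ _ _)⟩
      have h1 := J3h460.m_close μ (hbcl j) hb2 (J3h460.b_add (hb1 j) (hb1 (j + 1))) (fun n => by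
        rw [← mul_sub, abs_mul]
        have h2 := J3h460.arc (W := W) (δ := δ) hW hδ0 (a := W * α * n) (by positivity) hj
        have e1 : (W : ℝ) * α * n / W = α * n := by field_simp
        rw [e1] at h2
        have h3 : |cl W α j n - J3h460.gg W δ ((α * n - j / W : ℝ) : UnitAddCircle)| ≤
            (if ‖((α * n - j / W : ℝ) : UnitAddCircle)‖ < δ then (1 : ℝ) else 0) +
            (if ‖((α * n - ((j + 1 : ℕ) : ℝ) / W : ℝ) : UnitAddCircle)‖ < δ then 1 else 0) := by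
          unfold cl
          push_cast
          convert h2
        calc |F n| * |cl W α j n - J3h460.gg W δ ((α * n - j / W : ℝ) : UnitAddCircle)| ≤
              1 * ((if ‖((α * n - j / W : ℝ) : UnitAddCircle)‖ < δ then (1 : ℝ) else 0) +
              (if ‖((α * n - ((j + 1 : ℕ) : ℝ) / W : ℝ) : UnitAddCircle)‖ < δ then 1 else 0)) :=
              mul_le_mul (hF n) h3 (abs_nonneg _) zero_le_one
          _ = _ := one_mul _)
      refine h1.trans ?_
      rw [μ.add _ _ (hb1 j) (hb1 (j + 1))]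
      have h2 := hδ j (mem_range.2 (by omega))
      have h3 := hδ (j + 1) (mem_range.2 (by omega))
      linarith
    have h1 := hclose j hj
    have h2 := hclose 0 (by omega)
    rw [hgg δ j] at h1
    rw [hgg δ 0] at h2
    have h3 := abs_sub_le (μ.m (fun n => F n * cl W α j n))
      (μ.m (fun n => F n * J3h460.gg W δ ((α * n : ℝ) : UnitAddCircle))) (μ.m (fun n => F n * cl W α 0 n))
    rw [abs_sub_comm (μ.m (fun n => F n * J3h460.gg W δ ((α * n : ℝ) : UnitAddCircle)))] at h3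
    linarith
  -- the sum over the cells
  have hFb : Bd F := ⟨1, hF⟩
  have hsum : μ.m F = ∑ j ∈ range W, μ.m (fun n => F n * cl W α j n) := by
    rw [← μ.sum (range W) fun j _ => hbcl j]
    congr 1
    funext n
    rw [← mul_sum, cl_sum hW, mul_one]
  have h1 : μ.m F = W * μ.m (fun n => F n * cl W α j n) := by
    rw [hsum, sum_congr rfl fun i hi => (hsame i (mem_range.1 hi)).trans (hsame j hj).symm, sum_const, card_range,
      nsmul_eq_mul]
  have h2 : (fun n => F n * (cl W α j n - 1 / W)) = fun n => F n * cl W α j n - (1 / W) * F n := by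
    funext n
    ring
  rw [h2, μ.sub (hbcl j) (J3h460.b_smul _ hFb), μ.smul _ _ hFb, h1]
  field_simp
  ring

end mean

/-- **cells** -/
theorem cell (F : ℕ → ℝ) (hF : ∀ n, |F n| ≤ 1) (E : Set ℕ) {α : ℝ} (hα : Irrational α) (h0 : 0 < α)
    (h : NoPh F α E) {W : ℕ} (hW : 1 ≤ W) {j : ℕ} (hj : j < W) (ε : ℝ) (hε : 0 < ε) :
    ∃ N₀ : ℕ, ∀ N : ℕ, N₀ ≤ N → N ∉ E → |∑ n ∈ range N, F n * (cl W α j n - 1 / W)| ≤ ε * N := by
  by_contra hcon
  push Not at hcon
  obtain ⟨𝓤, hU, hmem⟩ := exists_ultra {N : ℕ | 1 ≤ N ∧ N ∉ E ∧ ε * N < |∑ n ∈ range N, F n * (cl W α j n - 1 / W)|}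
    (fun M₀ => by
      obtain ⟨N, h1, h2, h3⟩ := hcon (max M₀ 1)
      exact ⟨N, (le_max_left _ _).trans h1, (le_max_right _ _).trans h1, h2, h3⟩)
  set μ := um 𝓤 hU with hμ
  have h1 : ∀ z : ℤ, z ≠ 0 → ∀ θ : ℝ, (θ = 0 ∨ θ = -(1 / 4)) → μ.m (fun n => F n * ph θ (z * α * n)) = 0 := by
    intro z hz θ hθ
    have hb : Bd (fun n => F n * ph θ (z * α * n)) := ⟨1, fun n => mul_le' (hF n) (ph_le _ _)⟩
    have h2 := um_tendsto 𝓤 hU hb
    refine tendsto_nhds_unique h2 ?_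
    rw [tendsto_zero_iff_abs_tendsto_zero, Metric.tendsto_nhds]
    intro η hη
    obtain ⟨N₀, h3⟩ := h z hz θ hθ (η / 2) (by positivity)
    filter_upwards [hmem, hU (eventually_ge_atTop N₀)] with N hN hN0
    have hN1 : (0 : ℝ) < N := by exact_mod_cast hN.1
    rw [Real.dist_eq, sub_zero]
    show |(|Av N (fun n => F n * ph θ (z * α * n))|)| < η
    rw [abs_abs]
    unfold Av
    rw [abs_div, Nat.abs_cast, div_lt_iff₀ hN1]
    have h4 := h3 N hN0 hN.2.1
    nlinarith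
  have h2 := cell_mean μ F hF α h0 hα h1 hW hj
  have hb : Bd (fun n => F n * (cl W α j n - 1 / W)) := by
    refine ⟨1, fun n => mul_le' (hF n) ?_⟩
    have hW0 : (1 : ℝ) ≤ W := by exact_mod_cast hW
    have h3 : (0 : ℝ) ≤ 1 / W := by positivity
    have h4 : 1 / (W : ℝ) ≤ 1 := by rw [div_le_one (by linarith)]; exact hW0
    rw [abs_le]
    constructor <;> linarith [cl_nonneg W α j n, cl_le W α j n]
  have h3 := um_tendsto 𝓤 hU hb
  rw [← hμ, h2] at h3
  have h4 : ∀ᶠ N in (𝓤 : Filter ℕ), |Av N (fun n => F n * (cl W α j n - 1 / W))| < ε := by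
    have h5 := (tendsto_zero_iff_abs_tendsto_zero _).1 h3
    exact h5.eventually_lt_const hε
  obtain ⟨N, hN1, hN2⟩ := (h4.and hmem).exists
  have hN0 : (0 : ℝ) < N := by exact_mod_cast hN2.1
  unfold Av at hN1
  rw [abs_div, Nat.abs_cast, div_lt_iff₀ hN0] at hN1
  exact absurd hN2.2.2 (by linarith)

open scoped Classical in
/-- the indicator of an interval -/
noncomputable def iv' (α u v : ℝ) (n : ℕ) : ℝ := if u ≤ Int.fract (α * n) ∧ Int.fract (α * n) < v then 1 else 0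

lemma cell_idx {W : ℕ} (hW : 1 ≤ W) {α : ℝ} (h0 : 0 < α) (n : ℕ) :
    ⌊W * α * (n : ℝ)⌋₊ % W = ⌊W * Int.fract (α * n)⌋₊ := by
  have hW0 : (0 : ℝ) < W := by exact_mod_cast hW
  have h1 : 0 ≤ α * (n : ℝ) := by positivity
  have h2 : (W : ℝ) * α * n = W * Int.fract (α * n) + ((W * ⌊α * (n : ℝ)⌋₊ : ℕ) : ℝ) := by
    have h3 : ((⌊α * (n : ℝ)⌋₊ : ℕ) : ℝ) = (⌊α * (n : ℝ)⌋ : ℝ) := by
      rw [← Int.natCast_floor_eq_floor h1]
      rfl
    push_cast
    rw [h3, mul_assoc, ← mul_add, Int.fract_add_floor]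
  have h4 : 0 ≤ (W : ℝ) * Int.fract (α * n) := mul_nonneg hW0.le (Int.fract_nonneg _)
  rw [h2, Nat.floor_add_natCast h4, Nat.add_mul_mod_self_left]
  apply Nat.mod_eq_of_lt
  rw [Nat.floor_lt h4]
  have := Int.fract_lt_one (α * n)
  nlinarith

/-- the interval and the cells -/
lemma iv_cells {W : ℕ} (hW : 1 ≤ W) {α : ℝ} (h0 : 0 < α) {u v : ℝ} (hu : 0 ≤ u) (hv : 0 ≤ v) (n : ℕ) :
    |iv' α u v n - ∑ j ∈ Ioo ⌊W * u⌋₊ ⌊W * v⌋₊, cl W α j n| ≤ cl W α ⌊W * u⌋₊ n + cl W α ⌊W * v⌋₊ n := by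
  classical
  have hW0 : (0 : ℝ) < W := by exact_mod_cast hW
  set x := Int.fract (α * n) with hx
  have hx0 : 0 ≤ x := Int.fract_nonneg _
  set κ := ⌊W * x⌋₊ with hκ
  have hcl : ∀ j, cl W α j n = if κ = j then 1 else 0 := by
    intro j
    unfold cl
    rw [cell_idx hW h0]
  have hsum : ∑ j ∈ Ioo ⌊W * u⌋₊ ⌊W * v⌋₊, cl W α j n = if κ ∈ Ioo ⌊W * u⌋₊ ⌊W * v⌋₊ then 1 else 0 := by
    simp only [hcl]
    rw [sum_ite_eq]
  have hi : iv' α u v n = if u ≤ x ∧ x < v then 1 else 0 := rfl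
  rw [hsum, hi, hcl, hcl]
  have k1 : (κ : ℝ) ≤ W * x := Nat.floor_le (by positivity)
  have k2 : W * x < κ + 1 := Nat.lt_floor_add_one _
  have u1 : ((⌊W * u⌋₊ : ℕ) : ℝ) ≤ W * u := Nat.floor_le (by positivity)
  have u2 : W * u < ⌊W * u⌋₊ + 1 := Nat.lt_floor_add_one _
  have v1 : ((⌊W * v⌋₊ : ℕ) : ℝ) ≤ W * v := Nat.floor_le (by positivity)
  have v2 : W * v < ⌊W * v⌋₊ + 1 := Nat.lt_floor_add_one _
  by_cases hκu : κ = ⌊W * u⌋₊
  · rw [if_pos hκu]
    split_ifs <;> norm_num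
  by_cases hκv : κ = ⌊W * v⌋₊
  · rw [if_pos hκv]
    split_ifs <;> norm_num
  rw [if_neg hκu, if_neg hκv]
  have h1 : u ≤ x ↔ ⌊W * u⌋₊ < κ := by
    constructor
    · intro h
      have h2 : ⌊W * u⌋₊ ≤ κ := Nat.floor_le_floor (mul_le_mul_of_nonneg_left h hW0.le)
      omega
    · intro h
      have h2 : ((⌊W * u⌋₊ : ℕ) : ℝ) + 1 ≤ κ := by exact_mod_cast h
      have h3 : W * u ≤ W * x := by linarith
      exact le_of_mul_le_mul_left h3 hW0
  have h2 : x < v ↔ κ < ⌊W * v⌋₊ := by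
    constructor
    · intro h
      have h2 : κ ≤ ⌊W * v⌋₊ := Nat.floor_le_floor (mul_le_mul_of_nonneg_left h.le hW0.le)
      omega
    · intro h
      have h2 : (κ : ℝ) + 1 ≤ (⌊W * v⌋₊ : ℕ) := by exact_mod_cast h
      have h3 : W * x < W * v := by linarith
      exact lt_of_mul_lt_mul_left h3 hW0.le
  simp only [mem_Ioo, h1, h2]
  simp

end Pool.Agent.P8H6.Irr
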