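import Pool.Agent.Y958.TC.NM
import Mathlib.Analysis.Fourier.AddCircleMulti

/-!
Equidistribution of `⌊α_{k₀} n⌋ mod W` given the other residues, for a shift invariant mean. This is
`Pool.Agent.TH460.BL.J4544` (starting files), for means which are not assumed to be dilation covariant.
-/

set_option autoImplicit false

namespace Pool.Agent.P8H6.Irr

open Finset Filter
open Pool.Agent.TH112.BL (Bd)
open Pool.Agent.Y958.TC (NM)

namespace J3h460

/-! ### basics on the mean -/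

theorem b_of01 {φ : ℕ → ℝ} (h0 : ∀ n, 0 ≤ φ n) (h1 : ∀ n, φ n ≤ 1) : Bd φ :=
  ⟨1, fun n => abs_le.2 ⟨by linarith [h0 n], h1 n⟩⟩

theorem b_add {φ ψ : ℕ → ℝ} (h : Bd φ) (h' : Bd ψ) : Bd (fun n => φ n + ψ n) := by
  obtain ⟨C, hC⟩ := h
  obtain ⟨D, hD⟩ := h'
  exact ⟨C + D, fun n => (abs_add_le _ _).trans (add_le_add (hC n) (hD n))⟩

theorem b_smul {φ : ℕ → ℝ} (c : ℝ) (h : Bd φ) : Bd (fun n => c * φ n) := by
  obtain ⟨C, hC⟩ := h
  exact ⟨|c| * C, fun n => by rw [abs_mul]; exact mul_le_mul_of_nonneg_left (hC n) (abs_nonneg _)⟩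

theorem b_neg {φ : ℕ → ℝ} (h : Bd φ) : Bd (fun n => -φ n) := by
  obtain ⟨C, hC⟩ := h
  exact ⟨C, fun n => by rw [abs_neg]; exact hC n⟩

theorem b_sub {φ ψ : ℕ → ℝ} (h : Bd φ) (h' : Bd ψ) : Bd (fun n => φ n - ψ n) := by
  have := b_add h (b_neg h')
  simpa [sub_eq_add_neg] using this

theorem b_const (c : ℝ) : Bd (fun _ => c) := ⟨|c|, fun _ => le_rfl⟩

theorem b_shift {φ : ℕ → ℝ} (h : Bd φ) (k : ℕ) : Bd (fun n => φ (n + k)) := by
  obtain ⟨C, hC⟩ := h
  exact ⟨C, fun n => hC _⟩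

theorem b_sum {ι : Type*} (s : Finset ι) {φ : ι → ℕ → ℝ} (h : ∀ i ∈ s, Bd (φ i)) :
    Bd (fun n => ∑ i ∈ s, φ i n) := by
  classical
  induction s using Finset.induction_on with
  | empty => simpa using b_const 0
  | insert a s ha ih =>
    have h1 := b_add (h a (Finset.mem_insert_self _ _))
      (ih (fun i hi => h i (Finset.mem_insert_of_mem hi)))
    simpa [Finset.sum_insert ha] using h1

theorem m_zero (μ : NM) : μ.m (fun _ => 0) = 0 := by
  have := μ.smul 0 (fun _ => 1) (b_const 1)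
  simpa using this

theorem m_neg (μ : NM) {φ : ℕ → ℝ} (h : Bd φ) : μ.m (fun n => -φ n) = -μ.m φ := by
  have := μ.smul (-1) φ h
  simpa using this

theorem m_sub (μ : NM) {φ ψ : ℕ → ℝ} (h : Bd φ) (h' : Bd ψ) :
    μ.m (fun n => φ n - ψ n) = μ.m φ - μ.m ψ := by
  have := μ.add φ (fun n => -ψ n) h (b_neg h')
  rw [m_neg μ h'] at this
  simpa [sub_eq_add_neg] using this

theorem m_mono (μ : NM) {φ ψ : ℕ → ℝ} (h : Bd φ) (h' : Bd ψ) (hle : ∀ n, φ n ≤ ψ n) :
    μ.m φ ≤ μ.m ψ := by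
  have h1 := μ.nonneg (fun n => ψ n - φ n) (b_sub h' h) (fun n => sub_nonneg.2 (hle n))
  rw [m_sub μ h' h] at h1
  linarith

theorem m_const (μ : NM) (c : ℝ) : μ.m (fun _ => c) = c := by
  have := μ.smul c (fun _ => 1) (b_const 1)
  simpa [μ.one] using this

theorem m_sum (μ : NM) {ι : Type*} (s : Finset ι) {φ : ι → ℕ → ℝ} (h : ∀ i ∈ s, Bd (φ i)) :
    μ.m (fun n => ∑ i ∈ s, φ i n) = ∑ i ∈ s, μ.m (φ i) := by
  classical
  induction s using Finset.induction_on with
  | empty => simpa using m_zero μ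
  | insert a s ha ih =>
    have h1 := μ.add (φ a) (fun n => ∑ i ∈ s, φ i n) (h a (Finset.mem_insert_self _ _))
      (b_sum s (fun i hi => h i (Finset.mem_insert_of_mem hi)))
    rw [ih (fun i hi => h i (Finset.mem_insert_of_mem hi))] at h1
    simpa [Finset.sum_insert ha] using h1

theorem m_shift (μ : NM) {φ : ℕ → ℝ} (h : Bd φ) (k : ℕ) : μ.m (fun n => φ (n + k)) = μ.m φ := by
  induction k with
  | zero => rfl
  | succ k ih =>
    have h1 := μ.shift (fun n => φ (n + k)) (b_shift h k)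
    rw [ih] at h1
    rw [← h1]
    congr 1
    funext n
    congr 1
    ring

theorem m_abs_le (μ : NM) {φ ψ : ℕ → ℝ} (h : Bd φ) (h' : Bd ψ) (hle : ∀ n, |φ n| ≤ ψ n) :
    |μ.m φ| ≤ μ.m ψ := by
  rw [abs_le]
  constructor
  · have := m_mono μ (b_neg h') h (fun n => (abs_le.1 (hle n)).1)
    rw [m_neg μ h'] at this
    exact this
  · exact m_mono μ h h' (fun n => (abs_le.1 (hle n)).2)

theorem m_close (μ : NM) {φ φ' ψ : ℕ → ℝ} (h : Bd φ) (h1 : Bd φ') (h' : Bd ψ)
    (hle : ∀ n, |φ n - φ' n| ≤ ψ n) : |μ.m φ - μ.m φ'| ≤ μ.m ψ := by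
  rw [← m_sub μ h h1]
  exact m_abs_le μ (b_sub h h1) h' hle

/-! ### the complex mean -/

/-- bounded complex functions -/
def BdC (F : ℕ → ℂ) : Prop := ∃ C : ℝ, ∀ n, ‖F n‖ ≤ C

theorem bc_re {F : ℕ → ℂ} (h : BdC F) : Bd (fun n => (F n).re) := by
  obtain ⟨C, hC⟩ := h
  exact ⟨C, fun n => (Complex.abs_re_le_norm _).trans (hC n)⟩

theorem bc_im {F : ℕ → ℂ} (h : BdC F) : Bd (fun n => (F n).im) := by
  obtain ⟨C, hC⟩ := h
  exact ⟨C, fun n => (Complex.abs_im_le_norm _).trans (hC n)⟩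

/-- the complex mean -/
noncomputable def mC (μ : NM) (F : ℕ → ℂ) : ℂ :=
  (μ.m (fun n => (F n).re) : ℂ) + (μ.m (fun n => (F n).im) : ℂ) * Complex.I

theorem mC_add (μ : NM) {F G : ℕ → ℂ} (h : BdC F) (h' : BdC G) :
    mC μ (fun n => F n + G n) = mC μ F + mC μ G := by
  unfold mC
  have h1 := μ.add _ _ (bc_re h) (bc_re h')
  have h2 := μ.add _ _ (bc_im h) (bc_im h')
  simp only [Complex.add_re, Complex.add_im]
  rw [h1, h2]
  push_cast
  ring

theorem mC_smul (μ : NM) {F : ℕ → ℂ} (c : ℂ) (h : BdC F) :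
    mC μ (fun n => c * F n) = c * mC μ F := by
  unfold mC
  have e1 : μ.m (fun n => (c * F n).re) = c.re * μ.m (fun n => (F n).re)
      - c.im * μ.m (fun n => (F n).im) := by
    simp only [Complex.mul_re]
    rw [m_sub μ (b_smul _ (bc_re h)) (b_smul _ (bc_im h)), μ.smul _ _ (bc_re h), μ.smul _ _ (bc_im h)]
  have e2 : μ.m (fun n => (c * F n).im) = c.re * μ.m (fun n => (F n).im)
      + c.im * μ.m (fun n => (F n).re) := by
    simp only [Complex.mul_im]
    rw [μ.add _ _ (b_smul _ (bc_im h)) (b_smul _ (bc_re h)), μ.smul _ _ (bc_re h), μ.smul _ _ (bc_im h)]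
  rw [e1, e2]
  apply Complex.ext
  · simp
  · simp

theorem mC_norm_le (μ : NM) {F : ℕ → ℂ} {C : ℝ} (h : ∀ n, ‖F n‖ ≤ C) : ‖mC μ F‖ ≤ 2 * C := by
  have hb : BdC F := ⟨C, h⟩
  have h1 : |μ.m (fun n => (F n).re)| ≤ C := by
    have := m_abs_le μ (bc_re hb) (b_const C) (fun n => (Complex.abs_re_le_norm _).trans (h n))
    rwa [m_const] at this
  have h2 : |μ.m (fun n => (F n).im)| ≤ C := by
    have := m_abs_le μ (bc_im hb) (b_const C) (fun n => (Complex.abs_im_le_norm _).trans (h n))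
    rwa [m_const] at this
  unfold mC
  refine (norm_add_le _ _).trans ?_
  rw [norm_mul, Complex.norm_I, mul_one, Complex.norm_real, Complex.norm_real, Real.norm_eq_abs,
    Real.norm_eq_abs]
  linarith

theorem mC_shift (μ : NM) {F : ℕ → ℂ} (h : BdC F) : mC μ (fun n => F (n + 1)) = mC μ F := by
  unfold mC
  rw [μ.shift _ (bc_re h), μ.shift _ (bc_im h)]

theorem mC_ofReal (μ : NM) (φ : ℕ → ℝ) : mC μ (fun n => (φ n : ℂ)) = (μ.m φ : ℂ) := by
  unfold mC
  simp only [Complex.ofReal_re, Complex.ofReal_im]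
  rw [m_zero]
  simp

theorem mC_geom (μ : NM) {c : ℂ} (hc : ‖c‖ = 1) (h1 : c ≠ 1) : mC μ (fun n => c ^ n) = 0 := by
  have hb : BdC (fun n => c ^ n) := ⟨1, fun n => by rw [norm_pow, hc, one_pow]⟩
  have h2 := mC_shift μ hb
  have h3 := mC_smul μ c hb
  have e : (fun n => c ^ (n + 1)) = (fun n => c * c ^ n) := by
    funext n; rw [pow_succ]; ring
  rw [e, h3] at h2
  have h4 : (c - 1) * mC μ (fun n => c ^ n) = 0 := by linear_combination h2
  rcases mul_eq_zero.1 h4 with h5 | h5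
  · exact absurd (sub_eq_zero.1 h5) h1
  · exact h5

/-! ### equidistribution -/

section eqd

variable {ι : Type} [Fintype ι]

/-- the point `β n` of the torus -/
noncomputable def pt (β : ι → ℝ) (n : ℕ) : UnitAddTorus ι :=
  fun i => ((β i * n : ℝ) : UnitAddCircle)

theorem mF_pt (β : ι → ℝ) (z : ι → ℤ) (n : ℕ) :
    UnitAddTorus.mFourier z (pt β n) =
      (Complex.exp (2 * Real.pi * Complex.I * ((∑ i, (z i : ℝ) * β i : ℝ) : ℂ))) ^ n := by
  have e : UnitAddTorus.mFourier z (pt β n) = ∏ i, fourier (z i) (pt β n i) := rfl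
  rw [e, ← Complex.exp_nat_mul]
  have e2 : ∀ i, fourier (z i) (pt β n i) =
      Complex.exp ((n : ℂ) * (2 * Real.pi * Complex.I * ((z i : ℂ) * (β i : ℂ)))) := by
    intro i
    unfold pt
    rw [fourier_coe_apply]
    congr 1
    push_cast
    ring
  simp_rw [e2]
  rw [← Complex.exp_sum]
  congr 1
  push_cast
  rw [Finset.mul_sum, Finset.mul_sum]

theorem mF_add (z : ι → ℤ) (x c : UnitAddTorus ι) :
    UnitAddTorus.mFourier z (x + c) = UnitAddTorus.mFourier z x * UnitAddTorus.mFourier z c := by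
  have e : ∀ y : UnitAddTorus ι, UnitAddTorus.mFourier z y = ∏ i, fourier (z i) (y i) := fun y => rfl
  rw [e, e, e, ← Finset.prod_mul_distrib]
  refine Finset.prod_congr rfl fun i _ => ?_
  rw [fourier_apply, fourier_apply, fourier_apply, Pi.add_apply, smul_add, AddCircle.toCircle_add,
    Circle.coe_mul]

theorem bdC_pt (β : ι → ℝ) (c : UnitAddTorus ι) (f : C(UnitAddTorus ι, ℂ)) :
    ∀ n, ‖f (pt β n + c)‖ ≤ ‖f‖ := fun n => f.norm_coe_le_norm _

/-- the mean along `β n + c` as a continuous linear functional -/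
noncomputable def LL (μ : NM) (β : ι → ℝ) (c : UnitAddTorus ι) : C(UnitAddTorus ι, ℂ) →L[ℂ] ℂ :=
  LinearMap.mkContinuous
    { toFun := fun f => mC μ (fun n => f (pt β n + c))
      map_add' := fun f g => by
        have := mC_add μ ⟨_, bdC_pt β c f⟩ ⟨_, bdC_pt β c g⟩
        simpa using this
      map_smul' := fun a f => by
        have := mC_smul μ a ⟨_, bdC_pt β c f⟩
        simpa using this } 2 (fun f => mC_norm_le μ (bdC_pt β c f))

theorem LL_apply (μ : NM) (β : ι → ℝ) (c : UnitAddTorus ι) (f : C(UnitAddTorus ι, ℂ)) :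
    LL μ β c f = mC μ (fun n => f (pt β n + c)) := rfl

theorem exp_ne_one {θ : ℝ} (h : ∀ z : ℤ, θ ≠ z) :
    Complex.exp (2 * Real.pi * Complex.I * (θ : ℂ)) ≠ 1 := by
  intro h1
  rw [Complex.exp_eq_one_iff] at h1
  obtain ⟨z, hz⟩ := h1
  have h2 : (2 * Real.pi * Complex.I : ℂ) ≠ 0 := Complex.two_pi_I_ne_zero
  have h3 : (θ : ℂ) = (z : ℂ) := by
    apply mul_left_cancel₀ h2
    rw [hz]
    ring
  have h4 : (θ : ℂ) = ((z : ℝ) : ℂ) := by rw [h3]; simp
  exact h z (Complex.ofReal_injective h4)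

theorem mC_mF_zero (μ : NM) (β : ι → ℝ) (z : ι → ℤ) (h : ∀ y : ℤ, (∑ i, (z i : ℝ) * β i) ≠ y) :
    mC μ (fun n => UnitAddTorus.mFourier z (pt β n)) = 0 := by
  have e : (fun n => UnitAddTorus.mFourier z (pt β n)) =
      (fun n => (Complex.exp (2 * Real.pi * Complex.I * ((∑ i, (z i : ℝ) * β i : ℝ) : ℂ))) ^ n) := by
    funext n; exact mF_pt β z n
  rw [e]
  refine mC_geom μ ?_ (exp_ne_one h)
  have : (2 * Real.pi * Complex.I * ((∑ i, (z i : ℝ) * β i : ℝ) : ℂ)) =
      ((2 * Real.pi * (∑ i, (z i : ℝ) * β i) : ℝ) : ℂ) * Complex.I := by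
    push_cast; ring
  rw [this, Complex.norm_exp_ofReal_mul_I]

theorem LL_eq (μ : NM) (β : ι → ℝ) (c : UnitAddTorus ι)
    (h : ∀ z : ι → ℤ, UnitAddTorus.mFourier z c = 1 ∨ ∀ y : ℤ, (∑ i, (z i : ℝ) * β i) ≠ y) :
    LL μ β c = LL μ β 0 := by
  have key : (⊤ : Submodule ℂ C(UnitAddTorus ι, ℂ)) ≤ (LL μ β c - LL μ β 0).ker := by
    rw [← UnitAddTorus.span_mFourier_closure_eq_top]
    refine Submodule.topologicalClosure_minimal _ ?_ (ContinuousLinearMap.isClosed_ker _)
    rw [Submodule.span_le]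
    rintro _ ⟨z, rfl⟩
    show (LL μ β c - LL μ β 0) (UnitAddTorus.mFourier z) = 0
    rw [ContinuousLinearMap.sub_apply, sub_eq_zero, LL_apply, LL_apply]
    have e1 : (fun n => UnitAddTorus.mFourier z (pt β n + c)) =
        (fun n => UnitAddTorus.mFourier z c * UnitAddTorus.mFourier z (pt β n)) := by
      funext n; rw [mF_add, mul_comm]
    rw [e1]
    simp only [add_zero]
    have hb : BdC (fun n => UnitAddTorus.mFourier z (pt β n)) :=
      ⟨_, fun n => (UnitAddTorus.mFourier z).norm_coe_le_norm _⟩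
    rw [mC_smul μ _ hb]
    rcases h z with h1 | h1
    · rw [h1, one_mul]
    · rw [mC_mF_zero μ β z h1, mul_zero]
  ext f
  have := key (Submodule.mem_top (x := f))
  have h2 : (LL μ β c - LL μ β 0) f = 0 := this
  rw [ContinuousLinearMap.sub_apply, sub_eq_zero] at h2
  exact h2

end eqd

/-! ### boundary mass -/

open scoped Classical in
theorem bm (μ : NM) {θ : ℝ} (hθ : Irrational θ) (c : ℝ) {ε : ℝ} (hε : 0 < ε) :
    ∀ᶠ δ in nhdsWithin (0 : ℝ) (Set.Ioi 0),
      μ.m (fun n => if ‖((θ * n - c : ℝ) : UnitAddCircle)‖ < δ then 1 else 0) ≤ ε := by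
  obtain ⟨K, hK⟩ := exists_nat_gt (1 / ε)
  have hK0 : (0 : ℝ) < K := lt_trans (by positivity) hK
  have hfin : ∀ᶠ δ in nhdsWithin (0 : ℝ) (Set.Ioi 0), ∀ d ∈ Finset.Ico 1 K,
      2 * δ < ‖((θ * (d : ℕ) : ℝ) : UnitAddCircle)‖ := by
    rw [Finset.eventually_all]
    intro d hd
    have hd1 : 1 ≤ d := (Finset.mem_Ico.1 hd).1
    have hpos : 0 < ‖((θ * (d : ℕ) : ℝ) : UnitAddCircle)‖ := by
      rw [norm_pos_iff]
      intro h0
      rw [AddCircle.coe_eq_zero_iff] at h0
      obtain ⟨z, hz⟩ := h0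
      have h1 : Irrational (θ * (d : ℕ)) := hθ.mul_natCast (by omega)
      apply h1
      refine ⟨(z : ℚ), ?_⟩
      rw [← hz]
      simp
    have h2 : Tendsto (fun δ : ℝ => 2 * δ) (nhdsWithin (0 : ℝ) (Set.Ioi 0)) (nhds 0) := by
      have : Tendsto (fun δ : ℝ => 2 * δ) (nhds 0) (nhds (2 * 0)) :=
        (continuous_const.mul continuous_id).tendsto 0
      rw [mul_zero] at this
      exact this.mono_left nhdsWithin_le_nhds
    exact h2.eventually_lt_const hpos
  filter_upwards [hfin] with δ hδ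
  set φ : ℕ → ℝ := fun n => if ‖((θ * n - c : ℝ) : UnitAddCircle)‖ < δ then 1 else 0 with hφ
  have hb : Bd φ := b_of01 (fun n => by rw [hφ]; simp only; split_ifs <;> norm_num)
    (fun n => by rw [hφ]; simp only; split_ifs <;> norm_num)
  have h1 : ∀ n, ∑ j ∈ Finset.range K, φ (n + j) ≤ 1 := by
    intro n
    rw [hφ]
    simp only
    rw [Finset.sum_boole]
    have : ((Finset.range K).filter
        (fun j => ‖((θ * ((n + j : ℕ) : ℝ) - c : ℝ) : UnitAddCircle)‖ < δ)).card ≤ 1 := by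
      rw [Finset.card_le_one]
      have key : ∀ a b : ℕ, a < b → b < K →
          ‖((θ * ((n + a : ℕ) : ℝ) - c : ℝ) : UnitAddCircle)‖ < δ →
          ‖((θ * ((n + b : ℕ) : ℝ) - c : ℝ) : UnitAddCircle)‖ < δ → False := by
        intro a b hab hbK ha hb
        have h3 := hδ (b - a) (Finset.mem_Ico.2 ⟨by omega, by omega⟩)
        have e : ((θ * ((b - a : ℕ) : ℝ) : ℝ) : UnitAddCircle) =
            ((θ * ((n + b : ℕ) : ℝ) - c : ℝ) : UnitAddCircle) -
            ((θ * ((n + a : ℕ) : ℝ) - c : ℝ) : UnitAddCircle) := by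
          rw [← AddCircle.coe_sub]
          congr 1
          rw [Nat.cast_sub hab.le]
          push_cast
          ring
        rw [e] at h3
        have h4 := norm_sub_le ((θ * ((n + b : ℕ) : ℝ) - c : ℝ) : UnitAddCircle)
          ((θ * ((n + a : ℕ) : ℝ) - c : ℝ) : UnitAddCircle)
        linarith
      intro a ha b hb
      rw [Finset.mem_filter, Finset.mem_range] at ha hb
      rcases lt_trichotomy a b with h | h | h
      · exact (key a b h hb.1 ha.2 hb.2).elim
      · exact h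
      · exact (key b a h ha.1 hb.2 ha.2).elim
    exact_mod_cast this
  have h2 : μ.m (fun n => ∑ j ∈ Finset.range K, φ (n + j)) ≤ 1 := by
    have := m_mono μ (b_sum (Finset.range K) (fun j _ => b_shift hb j)) (b_const 1) h1
    rwa [m_const] at this
  rw [m_sum μ _ (fun j _ => b_shift hb j)] at h2
  rw [Finset.sum_congr rfl (fun j _ => m_shift μ hb j), Finset.sum_const, Finset.card_range,
    nsmul_eq_mul] at h2
  have h5 : 1 < K * ε := by
    rw [div_lt_iff₀ hε] at hK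
    exact hK
  by_contra hcon
  push Not at hcon
  have h6 : (K : ℝ) * ε < K * μ.m φ := mul_lt_mul_of_pos_left hcon hK0
  linarith

/-! ### arcs -/

/-- trapezoid on the circle, near the indicator of `[0, 1/W)` -/
noncomputable def gg (W : ℕ) (δ : ℝ) (x : UnitAddCircle) : ℝ :=
  max 0 (min 1 ((1 / (2 * (W : ℝ)) - ‖x - ((1 / (2 * (W : ℝ)) : ℝ) : UnitAddCircle)‖) / δ))

/-- tent on the circle -/
noncomputable def hh (W : ℕ) (x : UnitAddCircle) : ℝ := max 0 (1 - W * ‖x‖)

theorem gg_cont (W : ℕ) (δ : ℝ) : Continuous (gg W δ) := by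
  unfold gg
  fun_prop

theorem hh_cont (W : ℕ) : Continuous (hh W) := by
  unfold hh
  fun_prop

theorem gg_nonneg (W : ℕ) (δ : ℝ) (x : UnitAddCircle) : 0 ≤ gg W δ x := le_max_left _ _

theorem gg_le_one (W : ℕ) (δ : ℝ) (x : UnitAddCircle) : gg W δ x ≤ 1 :=
  max_le zero_le_one (min_le_left _ _)

theorem norm_coe_le (t : ℝ) : ‖(t : UnitAddCircle)‖ ≤ |t| := by
  rw [UnitAddCircle.norm_eq]
  have := round_le t 0
  simpa using this

theorem le_norm_coe {t s : ℝ} (h : s ≤ t) (h' : t ≤ 1 - s) : s ≤ ‖(t : UnitAddCircle)‖ := by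
  rw [UnitAddCircle.norm_eq]
  rcases le_or_gt (round t) 0 with h1 | h1
  · have : ((round t : ℤ) : ℝ) ≤ 0 := by exact_mod_cast h1
    exact le_trans (by linarith) (le_abs_self _)
  · have : (1 : ℝ) ≤ ((round t : ℤ) : ℝ) := by exact_mod_cast h1
    exact le_trans (by linarith) (neg_le_abs _)

theorem coe_add_int (q : ℤ) (t : ℝ) : (((q : ℝ) + t : ℝ) : UnitAddCircle) = (t : UnitAddCircle) := by
  rw [AddCircle.coe_add]
  have : ((q : ℝ) : UnitAddCircle) = 0 := by
    rw [AddCircle.coe_eq_zero_iff]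
    exact ⟨q, by simp⟩
  rw [this, zero_add]

theorem arc_in {W : ℕ} {δ t : ℝ} (hW : 1 ≤ W) (hδ : 0 < δ) (h0 : 0 ≤ t) (h1 : t < 1 / W) :
    |1 - gg W δ (t : UnitAddCircle)| ≤ (if ‖(t : UnitAddCircle)‖ < δ then (1 : ℝ) else 0) +
      (if ‖((t - 1 / W : ℝ) : UnitAddCircle)‖ < δ then 1 else 0) := by
  have hW' : (1 : ℝ) ≤ W := by exact_mod_cast hW
  have hlt : |1 - gg W δ (t : UnitAddCircle)| ≤ 1 := by
    rw [abs_le]
    constructor
    · linarith [gg_le_one W δ (t : UnitAddCircle)]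
    · linarith [gg_nonneg W δ (t : UnitAddCircle)]
  by_cases ht : t < δ
  · have : ‖(t : UnitAddCircle)‖ < δ := lt_of_le_of_lt (norm_coe_le t) (by rwa [abs_of_nonneg h0])
    rw [if_pos this]
    refine hlt.trans ?_
    split_ifs <;> norm_num
  · by_cases ht2 : 1 / (W : ℝ) - t < δ
    · have : ‖((t - 1 / W : ℝ) : UnitAddCircle)‖ < δ := by
        refine lt_of_le_of_lt (norm_coe_le _) ?_
        rw [abs_sub_comm, abs_of_nonneg (by linarith)]
        exact ht2
      rw [if_pos this]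
      refine hlt.trans ?_
      split_ifs <;> norm_num
    · push Not at ht ht2
      have hg : gg W δ (t : UnitAddCircle) = 1 := by
        unfold gg
        have h3 : ‖(t : UnitAddCircle) - ((1 / (2 * (W : ℝ)) : ℝ) : UnitAddCircle)‖ ≤
            1 / (2 * (W : ℝ)) - δ := by
          rw [← AddCircle.coe_sub]
          refine (norm_coe_le _).trans ?_
          have e : 1 / (W : ℝ) = 1 / (2 * (W : ℝ)) + 1 / (2 * (W : ℝ)) := by
            field_simp; norm_num
          rw [abs_le]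
          constructor
          · linarith
          · linarith
        have h4 : 1 ≤ (1 / (2 * (W : ℝ)) -
            ‖(t : UnitAddCircle) - ((1 / (2 * (W : ℝ)) : ℝ) : UnitAddCircle)‖) / δ := by
          rw [le_div_iff₀ hδ]
          linarith
        rw [min_eq_left h4]
        norm_num
      rw [hg, sub_self, abs_zero]
      split_ifs <;> norm_num

theorem arc_out {W : ℕ} {δ t : ℝ} (hW : 1 ≤ W) (hδ : 0 < δ) (h0 : 1 / (W : ℝ) ≤ t) (h1 : t ≤ 1) :
    gg W δ (t : UnitAddCircle) = 0 := by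
  have hW' : (1 : ℝ) ≤ W := by exact_mod_cast hW
  have e : 1 / (W : ℝ) = 1 / (2 * (W : ℝ)) + 1 / (2 * (W : ℝ)) := by
    field_simp; norm_num
  unfold gg
  have h3 : 1 / (2 * (W : ℝ)) ≤
      ‖(t : UnitAddCircle) - ((1 / (2 * (W : ℝ)) : ℝ) : UnitAddCircle)‖ := by
    rw [← AddCircle.coe_sub]
    apply le_norm_coe
    · linarith
    · linarith
  have h4 : (1 / (2 * (W : ℝ)) -
      ‖(t : UnitAddCircle) - ((1 / (2 * (W : ℝ)) : ℝ) : UnitAddCircle)‖) / δ ≤ 0 :=
    div_nonpos_of_nonpos_of_nonneg (by linarith) hδ.le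
  rw [max_eq_left]
  exact (min_le_right _ _).trans h4

theorem arc {W : ℕ} {δ : ℝ} (hW : 1 ≤ W) (hδ : 0 < δ) {a : ℝ} (ha : 0 ≤ a) {j : ℕ} (hj : j < W) :
    |(if ⌊a⌋₊ % W = j then (1 : ℝ) else 0) - gg W δ ((a / W - j / W : ℝ) : UnitAddCircle)| ≤
      (if ‖((a / W - j / W : ℝ) : UnitAddCircle)‖ < δ then (1 : ℝ) else 0) +
      (if ‖((a / W - (j + 1) / W : ℝ) : UnitAddCircle)‖ < δ then 1 else 0) := by
  have hW' : (0 : ℝ) < W := by exact_mod_cast (show 0 < W by omega)
  set N := ⌊a⌋₊ with hN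
  have hf0 : (N : ℝ) ≤ a := Nat.floor_le ha
  have hf1 : a < N + 1 := Nat.lt_floor_add_one a
  set q := N / W with hq
  set s := N % W with hs
  have hNq : (N : ℝ) = W * q + s := by
    have := Nat.div_add_mod N W
    exact_mod_cast this.symm
  have hsW : s < W := Nat.mod_lt _ (by omega)
  have hjr : (j : ℝ) + 1 ≤ W := by exact_mod_cast hj
  have hsr : (s : ℝ) + 1 ≤ W := by exact_mod_cast hsW
  by_cases hsj : s = j
  · rw [if_pos hsj]
    have hsj' : (s : ℝ) = j := by exact_mod_cast hsj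
    set t : ℝ := (a - N) / W with ht
    have e1 : ((a / W - j / W : ℝ) : UnitAddCircle) = (t : UnitAddCircle) := by
      have : (a / W - j / W : ℝ) = (((q : ℕ) : ℤ) : ℝ) + t := by
        rw [ht]
        field_simp
        push_cast
        rw [hNq, hsj']
        ring
      rw [this, coe_add_int]
    have e2 : ((a / W - (j + 1) / W : ℝ) : UnitAddCircle) = ((t - 1 / W : ℝ) : UnitAddCircle) := by
      have : (a / W - (j + 1) / W : ℝ) = (((q : ℕ) : ℤ) : ℝ) + (t - 1 / W) := by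
        rw [ht]
        field_simp
        push_cast
        rw [hNq, hsj']
        ring
      rw [this, coe_add_int]
    rw [e1, e2]
    refine arc_in hW hδ ?_ ?_
    · rw [ht]; exact div_nonneg (by linarith) hW'.le
    · rw [ht]; exact (div_lt_div_iff_of_pos_right hW').2 (by linarith)
  · rw [if_neg hsj]
    have hz : gg W δ ((a / W - j / W : ℝ) : UnitAddCircle) = 0 := by
      rcases lt_or_gt_of_ne hsj with h | h
      · have h' : (s : ℝ) + 1 ≤ j := by exact_mod_cast h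
        have e1 : (a / W - j / W : ℝ) = ((((q : ℕ) : ℤ) - 1 : ℤ) : ℝ) + (a - N + s - j + W) / W := by
          field_simp
          push_cast
          rw [hNq]
          ring
        rw [e1, coe_add_int]
        apply arc_out hW hδ
        · apply (div_le_div_iff_of_pos_right hW').2
          have : (0 : ℝ) ≤ s := by positivity
          linarith
        · rw [div_le_one hW']
          linarith
      · have h' : (j : ℝ) + 1 ≤ s := by exact_mod_cast h
        have e1 : (a / W - j / W : ℝ) = (((q : ℕ) : ℤ) : ℝ) + (a - N + s - j) / W := by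
          field_simp
          push_cast
          rw [hNq]
          ring
        rw [e1, coe_add_int]
        apply arc_out hW hδ
        · apply (div_le_div_iff_of_pos_right hW').2
          linarith
        · rw [div_le_one hW']
          have : (0 : ℝ) ≤ j := by positivity
          linarith
    rw [hz, sub_zero, abs_zero]
    split_ifs <;> norm_num

theorem tent {W : ℕ} (hW : 1 ≤ W) {v₀ : ℕ} (hv : v₀ < W) (n : ℕ) :
    hh W (((n : ℝ) / W - v₀ / W : ℝ) : UnitAddCircle) = if n % W = v₀ then 1 else 0 := by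
  have hW' : (0 : ℝ) < W := by exact_mod_cast (show 0 < W by omega)
  set q := n / W with hq
  set s := n % W with hs
  have hNq : (n : ℝ) = W * q + s := by
    have := Nat.div_add_mod n W
    exact_mod_cast this.symm
  have hsW : s < W := Nat.mod_lt _ (by omega)
  have hsr : (s : ℝ) + 1 ≤ W := by exact_mod_cast hsW
  have hvr : (v₀ : ℝ) + 1 ≤ W := by exact_mod_cast hv
  have hs0 : (0 : ℝ) ≤ s := by positivity
  have hv0 : (0 : ℝ) ≤ v₀ := by positivity
  by_cases h : s = v₀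
  · rw [if_pos h]
    have h' : (s : ℝ) = v₀ := by exact_mod_cast h
    have e1 : ((n : ℝ) / W - v₀ / W : ℝ) = (((q : ℕ) : ℤ) : ℝ) + 0 := by
      field_simp
      push_cast
      rw [hNq, h']
      ring
    rw [e1, coe_add_int]
    unfold hh
    simp
  · rw [if_neg h]
    have key : 1 / (W : ℝ) ≤ ‖(((n : ℝ) / W - v₀ / W : ℝ) : UnitAddCircle)‖ := by
      rcases lt_or_gt_of_ne h with h1 | h1
      · have h' : (s : ℝ) + 1 ≤ v₀ := by exact_mod_cast h1
        have e1 : ((n : ℝ) / W - v₀ / W : ℝ) =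
            ((((q : ℕ) : ℤ) - 1 : ℤ) : ℝ) + ((s : ℝ) - v₀ + W) / W := by
          field_simp
          push_cast
          rw [hNq]
          ring
        rw [e1, coe_add_int]
        apply le_norm_coe
        · apply (div_le_div_iff_of_pos_right hW').2
          linarith
        · rw [div_le_iff₀ hW', sub_mul, div_mul_cancel₀ _ hW'.ne']
          linarith
      · have h' : (v₀ : ℝ) + 1 ≤ s := by exact_mod_cast h1
        have e1 : ((n : ℝ) / W - v₀ / W : ℝ) = (((q : ℕ) : ℤ) : ℝ) + ((s : ℝ) - v₀) / W := by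
          field_simp
          push_cast
          rw [hNq]
          ring
        rw [e1, coe_add_int]
        apply le_norm_coe
        · apply (div_le_div_iff_of_pos_right hW').2
          linarith
        · rw [div_le_iff₀ hW', sub_mul, div_mul_cancel₀ _ hW'.ne']
          linarith
    unfold hh
    rw [max_eq_left]
    have : 1 ≤ (W : ℝ) * ‖(((n : ℝ) / W - v₀ / W : ℝ) : UnitAddCircle)‖ := by
      rw [div_le_iff₀ hW'] at key
      linarith
    linarith

theorem prod_close {κ : Type} (s : Finset κ) (u g : κ → ℝ) (hu0 : ∀ k, 0 ≤ u k) (hu1 : ∀ k, u k ≤ 1)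
    (hg0 : ∀ k, 0 ≤ g k) (hg1 : ∀ k, g k ≤ 1) :
    |∏ k ∈ s, u k - ∏ k ∈ s, g k| ≤ ∑ k ∈ s, |u k - g k| := by
  classical
  induction s using Finset.induction_on with
  | empty => simp
  | insert a s ha ih =>
    rw [Finset.prod_insert ha, Finset.prod_insert ha, Finset.sum_insert ha]
    have e : u a * ∏ k ∈ s, u k - g a * ∏ k ∈ s, g k =
        (u a - g a) * ∏ k ∈ s, u k + g a * (∏ k ∈ s, u k - ∏ k ∈ s, g k) := by ring
    rw [e]
    refine (abs_add_le _ _).trans (add_le_add ?_ ?_)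
    · rw [abs_mul]
      have h1 : |∏ k ∈ s, u k| ≤ 1 := by
        rw [abs_of_nonneg (Finset.prod_nonneg fun k _ => hu0 k)]
        exact Finset.prod_le_one (fun k _ => hu0 k) (fun k _ => hu1 k)
      exact mul_le_of_le_one_right (abs_nonneg _) h1
    · rw [abs_mul, abs_of_nonneg (hg0 a)]
      exact (mul_le_of_le_one_left (abs_nonneg _) (hg1 a)).trans ih

/-! ### assembly -/

section asm

variable {κ : Type} [Fintype κ]

/-- the frequencies -/
noncomputable def bet (α : κ → ℝ) (W : ℕ) : Option κ → ℝ :=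
  fun o => o.elim (1 / (W : ℝ)) (fun k => α k / W)

/-- the continuous approximation of the event -/
noncomputable def fr (W : ℕ) (δ : ℝ) (v₀ : ℕ) (v : κ → ℕ) (x : UnitAddTorus (Option κ)) : ℝ :=
  hh W (x none - (((v₀ : ℝ) / W : ℝ) : UnitAddCircle)) *
    ∏ k, gg W δ (x (some k) - (((v k : ℝ) / W : ℝ) : UnitAddCircle))

theorem fr_cont (W : ℕ) (δ : ℝ) (v₀ : ℕ) (v : κ → ℕ) : Continuous (fr W δ v₀ v) := by
  unfold fr
  refine Continuous.mul ?_ ?_
  · exact (hh_cont W).comp ((continuous_apply none).sub continuous_const)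
  · exact continuous_finset_prod _ fun k _ =>
      (gg_cont W δ).comp ((continuous_apply (some k)).sub continuous_const)

/-- the continuous approximation as a continuous complex function -/
noncomputable def fc (W : ℕ) (δ : ℝ) (v₀ : ℕ) (v : κ → ℕ) : C(UnitAddTorus (Option κ), ℂ) :=
  ⟨fun x => (fr W δ v₀ v x : ℂ), Complex.continuous_ofReal.comp (fr_cont W δ v₀ v)⟩

theorem LL_fc (μ : NM) (β : Option κ → ℝ) (c : UnitAddTorus (Option κ)) (W : ℕ) (δ : ℝ) (v₀ : ℕ)
    (v : κ → ℕ) : LL μ β c (fc W δ v₀ v) = (μ.m (fun n => fr W δ v₀ v (pt β n + c)) : ℂ) := by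
  rw [LL_apply]
  exact mC_ofReal μ _

open scoped Classical in
/-- the event -/
noncomputable def ind (α : κ → ℝ) (W : ℕ) (v₀ : ℕ) (v : κ → ℕ) (n : ℕ) : ℝ :=
  if n % W = v₀ ∧ ∀ k, ⌊α k * (n : ℝ)⌋₊ % W = v k then 1 else 0

open scoped Classical in
/-- the boundary terms -/
noncomputable def bdr (α : κ → ℝ) (W : ℕ) (δ : ℝ) (k : κ) (j : ℕ) (n : ℕ) : ℝ :=
  if ‖((α k / W * n - j / W : ℝ) : UnitAddCircle)‖ < δ then 1 else 0

theorem bdr_nonneg (α : κ → ℝ) (W : ℕ) (δ : ℝ) (k : κ) (j : ℕ) (n : ℕ) : 0 ≤ bdr α W δ k j n := by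
  unfold bdr; split_ifs <;> norm_num

theorem bdr_le (α : κ → ℝ) (W : ℕ) (δ : ℝ) (k : κ) (j : ℕ) (n : ℕ) : bdr α W δ k j n ≤ 1 := by
  unfold bdr; split_ifs <;> norm_num

theorem bdr_bd (α : κ → ℝ) (W : ℕ) (δ : ℝ) (k : κ) (j : ℕ) : Bd (bdr α W δ k j) :=
  b_of01 (bdr_nonneg α W δ k j) (bdr_le α W δ k j)

theorem ind_bd (α : κ → ℝ) (W : ℕ) (v₀ : ℕ) (v : κ → ℕ) : Bd (ind α W v₀ v) :=
  b_of01 (fun n => by unfold ind; split_ifs <;> norm_num)
    (fun n => by unfold ind; split_ifs <;> norm_num)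

theorem fr_bd (β : Option κ → ℝ) (c : UnitAddTorus (Option κ)) (W : ℕ) (δ : ℝ) (v₀ : ℕ)
    (v : κ → ℕ) : Bd (fun n => fr W δ v₀ v (pt β n + c)) := by
  refine ⟨‖fc W δ v₀ v‖, fun n => ?_⟩
  have := bdC_pt β c (fc W δ v₀ v) n
  rw [← Real.norm_eq_abs, ← Complex.norm_real]
  exact this

theorem approx (α : κ → ℝ) (hpos : ∀ k, 0 < α k) {W : ℕ} (hW : 1 ≤ W) {δ : ℝ} (hδ : 0 < δ)
    {v₀ : ℕ} (hv₀ : v₀ < W) {v : κ → ℕ} (hv : ∀ k, v k < W) (n : ℕ) :
    |ind α W v₀ v n - fr W δ v₀ v (pt (bet α W) n + 0)| ≤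
      ∑ k, (bdr α W δ k (v k) n + bdr α W δ k (v k + 1) n) := by
  classical
  rw [add_zero]
  have e1 : fr W δ v₀ v (pt (bet α W) n) = (if n % W = v₀ then 1 else 0) *
      ∏ k, gg W δ ((α k * n / W - (v k : ℝ) / W : ℝ) : UnitAddCircle) := by
    unfold fr
    have h1 : (pt (bet α W) n none - (((v₀ : ℝ) / W : ℝ) : UnitAddCircle)) =
        (((n : ℝ) / W - v₀ / W : ℝ) : UnitAddCircle) := by
      unfold pt bet
      rw [← AddCircle.coe_sub]
      congr 1
      simp only [Option.elim_none]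
      ring
    rw [h1, tent hW hv₀]
    congr 1
    refine Finset.prod_congr rfl fun k _ => ?_
    congr 1
    unfold pt bet
    rw [← AddCircle.coe_sub]
    congr 1
    simp only [Option.elim_some]
    ring
  have e2 : ind α W v₀ v n = (if n % W = v₀ then 1 else 0) *
      ∏ k, (if ⌊α k * (n : ℝ)⌋₊ % W = v k then (1 : ℝ) else 0) := by
    unfold ind
    rw [Finset.prod_boole]
    by_cases h1 : n % W = v₀
    · simp [h1]
    · simp [h1]
  rw [e1, e2, ← mul_sub, abs_mul]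
  have h2 : |(if n % W = v₀ then (1 : ℝ) else 0)| ≤ 1 := by split_ifs <;> norm_num
  refine (mul_le_of_le_one_left (abs_nonneg _) h2).trans ?_
  refine (prod_close Finset.univ _ _ (fun k => ?_) (fun k => ?_) (fun k => gg_nonneg W δ _)
    (fun k => gg_le_one W δ _)).trans ?_
  · split_ifs <;> norm_num
  · split_ifs <;> norm_num
  · refine Finset.sum_le_sum fun k _ => ?_
    have h3 := arc hW hδ (a := α k * n) (mul_nonneg (hpos k).le (Nat.cast_nonneg n)) (hv k)
    refine h3.trans (le_of_eq ?_)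
    unfold bdr
    have e3 : (α k / W * n - (v k : ℝ) / W : ℝ) = α k * n / W - (v k : ℝ) / W := by ring
    have e4 : (α k / W * n - ((v k + 1 : ℕ) : ℝ) / W : ℝ) = α k * n / W - ((v k : ℝ) + 1) / W := by
      push_cast; ring
    rw [e3, e4]

theorem close (μ : NM) (α : κ → ℝ) (hpos : ∀ k, 0 < α k) {W : ℕ} (hW : 1 ≤ W) {δ ε : ℝ}
    (hδ : 0 < δ) (hε : ∀ k, ∀ j ∈ Finset.range (W + 1), μ.m (bdr α W δ k j) ≤ ε)
    {v₀ : ℕ} (hv₀ : v₀ < W) {v : κ → ℕ} (hv : ∀ k, v k < W) :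
    |μ.m (ind α W v₀ v) - μ.m (fun n => fr W δ v₀ v (pt (bet α W) n + 0))| ≤
      Fintype.card κ * (2 * ε) := by
  have hb : ∀ k ∈ (Finset.univ : Finset κ),
      Bd (fun n => bdr α W δ k (v k) n + bdr α W δ k (v k + 1) n) := fun k _ =>
    b_add (bdr_bd α W δ k (v k)) (bdr_bd α W δ k (v k + 1))
  refine (m_close μ (ind_bd α W v₀ v) (fr_bd _ 0 W δ v₀ v) (b_sum _ hb)
    (approx α hpos hW hδ hv₀ hv)).trans ?_
  rw [m_sum μ _ hb]
  have : ∀ k ∈ (Finset.univ : Finset κ),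
      μ.m (fun n => bdr α W δ k (v k) n + bdr α W δ k (v k + 1) n) ≤ 2 * ε := by
    intro k _
    rw [μ.add _ _ (bdr_bd α W δ k (v k)) (bdr_bd α W δ k (v k + 1))]
    have h1 := hε k (v k) (Finset.mem_range.2 (by have := hv k; omega))
    have h2 := hε k (v k + 1) (Finset.mem_range.2 (by have := hv k; omega))
    linarith
  refine (Finset.sum_le_sum this).trans ?_
  rw [Finset.sum_const, Finset.card_univ, nsmul_eq_mul]

theorem freq {α : κ → ℝ} {k₀ : κ}
    (hind : α k₀ ∉ Submodule.span ℚ (insert (1 : ℝ) (α '' {k | k ≠ k₀})))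
    {W : ℕ} (hW : 1 ≤ W) (z : Option κ → ℤ) (hz : z (some k₀) ≠ 0) (y : ℤ) :
    (∑ i, (z i : ℝ) * bet α W i) ≠ y := by
  classical
  intro h
  apply hind
  have hW' : (0 : ℝ) < W := by exact_mod_cast (show 0 < W by omega)
  rw [Fintype.sum_option] at h
  simp only [bet, Option.elim_none, Option.elim_some] at h
  have h1 : (z none : ℝ) + ∑ k, (z (some k) : ℝ) * α k = W * y := by
    rw [← h, mul_add, Finset.mul_sum]
    congr 1
    · field_simp
    · refine Finset.sum_congr rfl fun k _ => ?_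
      field_simp
  rw [← Finset.add_sum_erase _ _ (Finset.mem_univ k₀)] at h1
  have hz' : (z (some k₀) : ℝ) ≠ 0 := by exact_mod_cast hz
  have h2 : α k₀ = (((W * y - z none : ℤ) : ℚ) / ((z (some k₀) : ℤ) : ℚ)) • (1 : ℝ) +
      ∑ k ∈ Finset.univ.erase k₀, (-((z (some k) : ℤ) : ℚ) / ((z (some k₀) : ℤ) : ℚ)) • α k := by
    have e : ∀ k, ((-((z (some k) : ℤ) : ℚ) / ((z (some k₀) : ℤ) : ℚ)) • α k : ℝ) =
        -((z (some k) : ℝ) * α k) / (z (some k₀) : ℝ) := by
      intro k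
      rw [Rat.smul_def]
      push_cast
      ring
    simp_rw [e]
    rw [← Finset.sum_div, Finset.sum_neg_distrib, Rat.smul_def]
    push_cast
    field_simp
    linarith
  rw [h2]
  refine Submodule.add_mem _ (Submodule.smul_mem _ _ (Submodule.subset_span (Set.mem_insert _ _)))
    (Submodule.sum_mem _ fun k hk => Submodule.smul_mem _ _ (Submodule.subset_span ?_))
  exact Set.mem_insert_of_mem _ ⟨k, (Finset.mem_erase.1 hk).1, rfl⟩

theorem mF_single [DecidableEq κ] (z : Option κ → ℤ) (k₀ : κ) (hz : z (some k₀) = 0)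
    (s : UnitAddCircle) :
    UnitAddTorus.mFourier z (Pi.single (some k₀) s : UnitAddTorus (Option κ)) = 1 := by
  have e : ∀ y : UnitAddTorus (Option κ), UnitAddTorus.mFourier z y = ∏ i, fourier (z i) (y i) :=
    fun y => rfl
  rw [e]
  refine Finset.prod_eq_one fun i _ => ?_
  by_cases h : i = some k₀
  · subst h
    rw [hz]
    simp
  · rw [Pi.single_eq_of_ne h]
    exact fourier_eval_zero _

theorem trans [DecidableEq κ] (W : ℕ) (δ : ℝ) (v₀ : ℕ) (v : κ → ℕ) (k₀ : κ) (r : ℕ)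
    (x : UnitAddTorus (Option κ)) :
    fr W δ v₀ (Function.update v k₀ 0)
      (x + Pi.single (some k₀) (((-((r : ℝ) / W)) : ℝ) : UnitAddCircle)) =
    fr W δ v₀ (Function.update v k₀ r) x := by
  unfold fr
  congr 1
  · congr 1
    rw [Pi.add_apply, Pi.single_eq_of_ne (by simp), add_zero]
  · refine Finset.prod_congr rfl fun k _ => ?_
    congr 1
    by_cases h : k = k₀
    · subst h
      rw [Pi.add_apply, Pi.single_eq_same, Function.update_self, Function.update_self]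
      simp [sub_eq_add_neg]
    · rw [Pi.add_apply, Pi.single_eq_of_ne (by simpa using h), add_zero,
        Function.update_of_ne h, Function.update_of_ne h]

theorem main [DecidableEq κ] (μ : NM) (α : κ → ℝ) (hpos : ∀ k, 0 < α k)
    (hirr : ∀ k, Irrational (α k)) (k₀ : κ)
    (hind : α k₀ ∉ Submodule.span ℚ (insert (1 : ℝ) (α '' {k | k ≠ k₀})))
    {W : ℕ} (hW : 1 ≤ W) {v : κ → ℕ} {v₀ r : ℕ} (hr : r < W) (hv₀ : v₀ < W)
    (hv : ∀ k, k ≠ k₀ → v k < W) :
    μ.m (ind α W v₀ (Function.update v k₀ r)) = μ.m (ind α W v₀ (Function.update v k₀ 0)) := by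
  apply eq_of_forall_dist_le
  intro ε₀ hε₀
  set C : ℝ := 4 * Fintype.card κ + 1 with hC
  have hC0 : 0 < C := by positivity
  have hε : 0 < ε₀ / C := by positivity
  have hWne : W ≠ 0 := by omega
  have hev : ∀ᶠ δ in nhdsWithin (0 : ℝ) (Set.Ioi 0), ∀ k, ∀ j ∈ Finset.range (W + 1),
      μ.m (bdr α W δ k j) ≤ ε₀ / C := by
    rw [Filter.eventually_all]
    intro k
    rw [Finset.eventually_all]
    intro j _
    exact bm μ ((hirr k).div_natCast hWne) ((j : ℝ) / W) hε
  obtain ⟨δ, hδ1, hδ0⟩ := (hev.and self_mem_nhdsWithin).exists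
  have hδ : 0 < δ := hδ0
  have hvr : ∀ s, s < W → ∀ k, Function.update v k₀ s k < W := by
    intro s hs k
    by_cases h : k = k₀
    · subst h; rwa [Function.update_self]
    · rw [Function.update_of_ne h]; exact hv k h
  have c1 := close μ α hpos hW hδ hδ1 hv₀ (hvr r hr)
  have c2 := close μ α hpos hW hδ hδ1 hv₀ (hvr 0 (by omega))
  have hLL := LL_eq μ (bet α W)
    (Pi.single (some k₀) (((-((r : ℝ) / W)) : ℝ) : UnitAddCircle)) (fun z => by
      by_cases hz : z (some k₀) = 0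
      · exact Or.inl (mF_single z k₀ hz _)
      · exact Or.inr (freq hind hW z hz))
  have h3 : LL μ (bet α W) (Pi.single (some k₀) (((-((r : ℝ) / W)) : ℝ) : UnitAddCircle))
      (fc W δ v₀ (Function.update v k₀ 0)) = LL μ (bet α W) 0 (fc W δ v₀ (Function.update v k₀ 0)) := by
    rw [hLL]
  rw [LL_fc, LL_fc] at h3
  have h4 := Complex.ofReal_injective h3
  have h5 : (fun n => fr W δ v₀ (Function.update v k₀ 0)
      (pt (bet α W) n + Pi.single (some k₀) (((-((r : ℝ) / W)) : ℝ) : UnitAddCircle))) =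
      (fun n => fr W δ v₀ (Function.update v k₀ r) (pt (bet α W) n + 0)) := by
    funext n
    rw [trans, add_zero]
  rw [h5] at h4
  rw [h4] at c1
  rw [Real.dist_eq]
  have h6 : |μ.m (ind α W v₀ (Function.update v k₀ r)) - μ.m (ind α W v₀ (Function.update v k₀ 0))| ≤
      Fintype.card κ * (2 * (ε₀ / C)) + Fintype.card κ * (2 * (ε₀ / C)) := by
    have := abs_sub_le (μ.m (ind α W v₀ (Function.update v k₀ r)))
      (μ.m (fun n => fr W δ v₀ (Function.update v k₀ 0) (pt (bet α W) n + 0)))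
      (μ.m (ind α W v₀ (Function.update v k₀ 0)))
    rw [abs_sub_comm] at c2
    linarith
  refine h6.trans ?_
  have h7 : (Fintype.card κ : ℝ) * (2 * (ε₀ / C)) + Fintype.card κ * (2 * (ε₀ / C)) =
      (4 * Fintype.card κ) * ε₀ / C := by ring
  rw [h7, div_le_iff₀ hC0, hC]
  have : (0 : ℝ) ≤ ε₀ := hε₀.le
  nlinarith

end asm

end J3h460

open scoped Classical in
theorem equi (μ : NM) {κ : Type} [Fintype κ] (α : κ → ℝ) (hpos : ∀ k, 0 < α k)
    (hirr : ∀ k, Irrational (α k)) (k₀ : κ)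
    (hind : α k₀ ∉ Submodule.span ℚ (insert (1 : ℝ) (α '' {k | k ≠ k₀})))
    (W : ℕ) (hW : 1 ≤ W) (v : κ → ℕ) (v₀ r : ℕ) (hr : r < W) :
    μ.m (fun n => if (n % W = v₀ ∧ ∀ k, k ≠ k₀ → ⌊α k * (n : ℝ)⌋₊ % W = v k) ∧
        ⌊α k₀ * (n : ℝ)⌋₊ % W = r then 1 else 0) =
      (1 / (W : ℝ)) *
        μ.m (fun n => if n % W = v₀ ∧ ∀ k, k ≠ k₀ → ⌊α k * (n : ℝ)⌋₊ % W = v k then 1 else 0) := by
  have hW' : (0 : ℝ) < W := by exact_mod_cast (show 0 < W by omega)
  have hlt : ∀ N : ℕ, N % W < W := fun N => Nat.mod_lt _ (by omega)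
  by_cases hgood : v₀ < W ∧ ∀ k, k ≠ k₀ → v k < W
  · obtain ⟨hv₀, hv⟩ := hgood
    have e1 : ∀ s, (fun n : ℕ => if (n % W = v₀ ∧ ∀ k, k ≠ k₀ → ⌊α k * (n : ℝ)⌋₊ % W = v k) ∧
        ⌊α k₀ * (n : ℝ)⌋₊ % W = s then (1 : ℝ) else 0) = J3h460.ind α W v₀ (Function.update v k₀ s) := by
      intro s
      funext n
      unfold J3h460.ind
      have : ((n % W = v₀ ∧ ∀ k, k ≠ k₀ → ⌊α k * (n : ℝ)⌋₊ % W = v k) ∧
          ⌊α k₀ * (n : ℝ)⌋₊ % W = s) ↔
          (n % W = v₀ ∧ ∀ k, ⌊α k * (n : ℝ)⌋₊ % W = Function.update v k₀ s k) := by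
        constructor
        · rintro ⟨⟨h1, h2⟩, h3⟩
          refine ⟨h1, fun k => ?_⟩
          by_cases h : k = k₀
          · subst h; rw [Function.update_self]; exact h3
          · rw [Function.update_of_ne h]; exact h2 k h
        · rintro ⟨h1, h2⟩
          refine ⟨⟨h1, fun k h => ?_⟩, ?_⟩
          · have := h2 k; rwa [Function.update_of_ne h] at this
          · have := h2 k₀; rwa [Function.update_self] at this
      simp only [this]
    have e2 : (fun n : ℕ => if n % W = v₀ ∧ ∀ k, k ≠ k₀ → ⌊α k * (n : ℝ)⌋₊ % W = v k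
        then (1 : ℝ) else 0) =
        (fun n => ∑ s ∈ Finset.range W, J3h460.ind α W v₀ (Function.update v k₀ s) n) := by
      funext n
      have e3 : ∀ s ∈ Finset.range W, J3h460.ind α W v₀ (Function.update v k₀ s) n =
          if s = ⌊α k₀ * (n : ℝ)⌋₊ % W then
            (if n % W = v₀ ∧ ∀ k, k ≠ k₀ → ⌊α k * (n : ℝ)⌋₊ % W = v k then (1 : ℝ) else 0) else 0 := by
        intro s _
        have := congrFun (e1 s) n
        rw [← this]
        by_cases h : ⌊α k₀ * (n : ℝ)⌋₊ % W = s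
        · simp [h]
        · have h' : ¬ (s = ⌊α k₀ * (n : ℝ)⌋₊ % W) := fun hh => h hh.symm
          simp [h, h']
      rw [Finset.sum_congr rfl e3, Finset.sum_ite_eq', if_pos (Finset.mem_range.2 (hlt _))]
    rw [e1 r, e2, J3h460.m_sum μ _ (fun s _ => J3h460.ind_bd α W v₀ _)]
    have e4 : ∀ s ∈ Finset.range W, μ.m (J3h460.ind α W v₀ (Function.update v k₀ s)) =
        μ.m (J3h460.ind α W v₀ (Function.update v k₀ 0)) := fun s hs =>
      J3h460.main μ α hpos hirr k₀ hind hW (Finset.mem_range.1 hs) hv₀ hv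
    rw [Finset.sum_congr rfl e4, Finset.sum_const, Finset.card_range, nsmul_eq_mul,
      e4 r (Finset.mem_range.2 hr)]
    field_simp
  · have hf : ∀ n : ℕ, ¬ (n % W = v₀ ∧ ∀ k, k ≠ k₀ → ⌊α k * (n : ℝ)⌋₊ % W = v k) := by
      rintro n ⟨h1, h2⟩
      exact hgood ⟨h1 ▸ hlt n, fun k hk => (h2 k hk) ▸ hlt _⟩
    simp only [hf, false_and, if_false]
    rw [J3h460.m_zero, mul_zero]

end Pool.Agent.P8H6.Irr
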