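import Pool.Agent.Y958.TC.Two
import Pool.Agent.P8H6.Irr.Equi

/-!
# Products of flipping functions along linear forms do not correlate with irrational phases (one scale)
-/

set_option autoImplicit false

namespace Pool.Agent.P8H6.Irr

open Finset Filter Topology
open Pool.Agent.TH112.BL (Bd QD win)
open Pool.Agent.Y958.TC

/-! ### the letters -/

/-- the digit `⌊α (n + 1)⌋ - ⌊α n⌋` -/
noncomputable def dg (α : ℝ) (n : ℕ) : ℕ := ⌊α * ((n + 1 : ℕ) : ℝ)⌋₊ - ⌊α * (n : ℝ)⌋₊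

lemma floor_succ {α : ℝ} (h0 : 0 < α) (h1 : α < 1) (n : ℕ) :
    ⌊α * ((n + 1 : ℕ) : ℝ)⌋₊ = ⌊α * (n : ℝ)⌋₊ + dg α n ∧ dg α n < 2 := by
  have h2 : ⌊α * (n : ℝ)⌋₊ ≤ ⌊α * ((n + 1 : ℕ) : ℝ)⌋₊ := by
    apply Nat.floor_le_floor
    exact mul_le_mul_of_nonneg_left (by push_cast; linarith) h0.le
  have h3 : ⌊α * ((n + 1 : ℕ) : ℝ)⌋₊ ≤ ⌊α * (n : ℝ)⌋₊ + 1 := by
    have h4 : ⌊α * (n : ℝ) + 1⌋₊ = ⌊α * (n : ℝ)⌋₊ + 1 :=
      Nat.floor_add_one (mul_nonneg h0.le (Nat.cast_nonneg n))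
    rw [← h4]
    apply Nat.floor_le_floor
    push_cast
    linarith
  unfold dg
  omega

/-- the cocycles -/
noncomputable def bb (α : ℝ) : Option Unit → ℕ → ℕ
  | none => fun n => n
  | some _ => fun n => ⌊α * (n : ℝ)⌋₊

/-- the letters: the values of the functions and the digits -/
noncomputable def lt' {k : ℕ} (f : Fin k → ℕ → ℤ) (a : Fin k → ℕ) (A : ℕ) (α : ℝ) (n : ℕ) :
    (Fin k → Fin A → SignType) × Fin 2 :=
  (fun i j => SignType.sign (f i (a i * n + j)), Fin.ofNat 2 (dg α n))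

/-- the increments -/
def dd {k A : ℕ} : Option Unit → (Fin k → Fin A → SignType) × Fin 2 → ℕ
  | none => fun _ => 1
  | some _ => fun l => (l.2 : ℕ)

lemma bb_succ {k : ℕ} (f : Fin k → ℕ → ℤ) (a : Fin k → ℕ) (A : ℕ) {α : ℝ} (h0 : 0 < α) (h1 : α < 1)
    (j : Option Unit) (n : ℕ) : bb α j (n + 1) = bb α j n + dd j (lt' f a A α n) := by
  cases j with
  | none => rfl
  | some _ =>
    obtain ⟨h2, h3⟩ := floor_succ h0 h1 n
    show ⌊α * ((n + 1 : ℕ) : ℝ)⌋₊ = ⌊α * (n : ℝ)⌋₊ + ((Fin.ofNat 2 (dg α n) : Fin 2) : ℕ)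
    rw [h2]
    congr 1
    simp only [Fin.ofNat_eq_cast, Fin.val_natCast]
    exact (Nat.mod_eq_of_lt h3).symm

lemma sg_cast {f : ℕ → ℤ} (hb : ∀ n, |f n| ≤ 1) {n m : ℕ} (h : SignType.sign (f n) = SignType.sign (f m)) :
    f n = f m := by
  have h1 : ∀ n, ((SignType.sign (f n) : SignType) : ℤ) = f n := by
    intro n
    have h2 := abs_le.1 (hb n)
    have h3 : f n = -1 ∨ f n = 0 ∨ f n = 1 := by omega
    rcases h3 with h3 | h3 | h3 <;> rw [h3] <;> simp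
  rw [← h1 n, ← h1 m, h]

/-- reading a value in a window -/
lemma read_f {k : ℕ} (f : Fin k → ℕ → ℤ) (hb : ∀ i n, |f i n| ≤ 1) (a : Fin k → ℕ) (ha : ∀ i, 1 ≤ a i) {A : ℕ}
    (hA : ∀ i, a i ≤ A) (α : ℝ) {W n n' : ℕ} (h : win W (lt' f a A α) n = win W (lt' f a A α) n') (i : Fin k)
    (s m : ℕ) (hs : s + m < W) : f i (a i * (n + s) + m) = f i (a i * (n' + s) + m) := by
  have ha' := ha i
  have hq : m / a i ≤ m := Nat.div_le_self _ _
  have h1 := congrFun h ⟨s + m / a i, by omega⟩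
  unfold win lt' at h1
  simp only [Prod.mk.injEq] at h1
  have h2 := congrFun (congrFun h1.1 i) ⟨m % a i, (Nat.mod_lt _ (by omega)).trans_le (hA i)⟩
  simp only at h2
  have h3 := sg_cast (hb i) h2
  have e : ∀ x : ℕ, a i * (x + (s + m / a i)) + m % a i = a i * (x + s) + m := by
    intro x
    have := Nat.div_add_mod m (a i)
    calc a i * (x + (s + m / a i)) + m % a i = a i * (x + s) + (a i * (m / a i) + m % a i) := by ring
      _ = _ := by rw [this]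
  rw [e, e] at h3
  exact h3

/-- reading the increment of the Beatty cocycle -/
lemma read_d {k : ℕ} (f : Fin k → ℕ → ℤ) (a : Fin k → ℕ) (A : ℕ) {α : ℝ} (h0 : 0 < α) (h1 : α < 1)
    {W n n' : ℕ} (h : win W (lt' f a A α) n = win W (lt' f a A α) n') (t : ℕ) (ht : t ≤ W) :
    ∃ D : ℕ, ⌊α * ((n + t : ℕ) : ℝ)⌋₊ = ⌊α * (n : ℝ)⌋₊ + D ∧ ⌊α * ((n' + t : ℕ) : ℝ)⌋₊ = ⌊α * (n' : ℝ)⌋₊ + D := by
  have hc := fun x => coc (lt' f a A α) (bb α) (dd := dd) (bb_succ f a A h0 h1) (some ()) x t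
  refine ⟨∑ j ∈ range t, dd (some ()) (lt' f a A α (n + j)), hc n, ?_⟩
  have h2 := hc n'
  have h3 : ∑ j ∈ range t, dd (some ()) (lt' f a A α (n + j)) = ∑ j ∈ range t, dd (some ()) (lt' f a A α (n' + j)) := by
    refine sum_congr rfl fun j hj => ?_
    have := congrFun h ⟨j, (mem_range.1 hj).trans_le ht⟩
    unfold win at this
    simp only at this
    rw [this]
  rw [h3]
  exact h2

/-! ### the phases -/

/-- `cos (2 π (x + θ))` -/
noncomputable def ph (θ x : ℝ) : ℝ := Real.cos (2 * Real.pi * (x + θ))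

lemma ph_le (θ x : ℝ) : |ph θ x| ≤ 1 := Real.abs_cos_le_one _

lemma ph_int (θ x : ℝ) (z : ℤ) : ph θ (x + z) = ph θ x := by
  unfold ph
  rw [show 2 * Real.pi * (x + z + θ) = 2 * Real.pi * (x + θ) + z * (2 * Real.pi) by ring]
  exact Real.cos_add_int_mul_two_pi _ _

lemma ph_lip (θ x y : ℝ) : |ph θ x - ph θ y| ≤ 2 * Real.pi * |x - y| := by
  have h := Real.abs_cos_sub_cos_le (2 * Real.pi * (x + θ)) (2 * Real.pi * (y + θ))
  have e : 2 * Real.pi * (x + θ) - 2 * Real.pi * (y + θ) = 2 * Real.pi * (x - y) := by ring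
  unfold ph
  rw [e, abs_mul, abs_of_pos Real.two_pi_pos] at h
  exact h

/-- the mean over the residues vanishes -/
lemma ph_sum (θ : ℝ) (p D : ℕ) (hp : 2 ≤ p) : ∑ r ∈ range p, ph θ (((r + D : ℕ) : ℝ) / p) = 0 := by
  have hp0 : (p : ℝ) ≠ 0 := by
    have : (2 : ℝ) ≤ p := by exact_mod_cast hp
    linarith
  have hpc : (p : ℂ) ≠ 0 := by exact_mod_cast hp0
  set ζ : ℂ := Complex.exp (2 * Real.pi * Complex.I / p) with hζ
  have hprim : IsPrimitiveRoot ζ p := Complex.isPrimitiveRoot_exp p (by omega)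
  have h1 : ∑ r ∈ range p, ζ ^ r = 0 := hprim.geom_sum_eq_zero (by omega)
  have h2 : ∀ r : ℕ, (ph θ (((r + D : ℕ) : ℝ) / p) : ℝ) =
      (ζ ^ r * Complex.exp (2 * Real.pi * Complex.I * (D / p + θ))).re := by
    intro r
    have e1 : ζ ^ r * Complex.exp (2 * Real.pi * Complex.I * (D / p + θ)) =
        Complex.exp (((2 * Real.pi * (((r + D : ℕ) : ℝ) / p + θ) : ℝ) : ℂ) * Complex.I) := by
      rw [hζ, ← Complex.exp_nat_mul, ← Complex.exp_add]
      congr 1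
      push_cast
      ring
    rw [e1, Complex.exp_ofReal_mul_I_re]
    rfl
  rw [sum_congr rfl fun r _ => h2 r, ← Complex.re_sum, ← sum_mul, h1]
  simp

end Pool.Agent.P8H6.Irr
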