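import Pool.Agent.P8H6.Irr.Poly

/-!
# Both signs; polynomials with rational roots
-/

set_option autoImplicit false

namespace Pool.Agent.P8H6.Irr

open Finset Filter Topology
open Pool.Agent.Y958.U (LZ)

lemma sm_neg {d : ℕ} (a b : Fin d → ℤ) (α u v : ℝ) (w : ℤ) :
    sm a b α u v (-w) = sm (fun i => -a i) b (-α) u v w := by
  unfold sm
  have h1 : ∏ i, (a i * -w + b i) = ∏ i, ((fun i => -a i) i * w + b i) :=
    prod_congr rfl fun i _ => by
      show a i * -w + b i = -a i * w + b i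
      ring
  have h2 : α * ((-w : ℤ) : ℝ) = -α * (w : ℝ) := by
    push_cast
    ring
  rw [h1, h2]

/-- **both sides** -/
theorem both {α : ℝ} (hα : Irrational α) (E : Set ℕ) (hE : Ex α E) (hE' : Ex (-α) E) (d : ℕ) (a b : Fin d → ℤ)
    (ha : ∀ i, a i ≠ 0) (q : ℕ) (hq : 1 ≤ q) (r : ℤ) (ε : ℝ) (hε : 0 < ε) :
    ∃ N₀ : ℕ, ∀ N : ℕ, N₀ ≤ N → N ∉ E → ∀ x ≤ N, ∀ u v : ℝ, 0 ≤ u → u ≤ v → v ≤ 1 →
      |∑ w ∈ (Icc (-(x : ℤ)) x).filter (fun w => w ≡ r [ZMOD q]), sm a b α u v w| ≤ ε * N := by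
  classical
  obtain ⟨N₁, h1⟩ := pos_side hα E hE d a b ha q hq r (ε / 3) (by positivity)
  obtain ⟨N₂, h2⟩ := pos_side hα.neg E hE' d (fun i => -a i) b (fun i => neg_ne_zero.2 (ha i)) q hq (-r) (ε / 3)
    (by positivity)
  obtain ⟨N₃, hN₃⟩ := exists_nat_ge (3 / ε)
  refine ⟨N₁ + N₂ + N₃, fun N hN hNE x hx u v hu huv hv => ?_⟩
  have h3 := h1 N (by omega) hNE x hx u v hu huv hv
  have h4 := h2 N (by omega) hNE x hx u v hu huv hv
  have hsplit : (Icc (-(x : ℤ)) x).filter (fun w => w ≡ r [ZMOD q]) =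
      (((Icc 1 x).filter (fun w : ℕ => (w : ℤ) ≡ r [ZMOD q])).image (fun w : ℕ => (w : ℤ))) ∪
      ((((Icc 1 x).filter (fun w : ℕ => (w : ℤ) ≡ -r [ZMOD q])).image (fun w : ℕ => -(w : ℤ))) ∪
      (({0} : Finset ℤ).filter (fun w => w ≡ r [ZMOD q]))) := by
    ext w
    simp only [mem_filter, mem_union, mem_image, mem_Icc, mem_singleton]
    constructor
    · rintro ⟨⟨h5, h6⟩, h7⟩
      rcases lt_trichotomy w 0 with h8 | h8 | h8
      · right; left
        refine ⟨(-w).toNat, ⟨⟨by omega, by omega⟩, ?_⟩, by omega⟩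
        rw [Int.toNat_of_nonneg (by omega)]
        exact h7.neg
      · right; right
        exact ⟨h8, h7⟩
      · left
        refine ⟨w.toNat, ⟨⟨by omega, by omega⟩, ?_⟩, by omega⟩
        rw [Int.toNat_of_nonneg (by omega)]
        exact h7
    · rintro (⟨m, ⟨⟨h5, h6⟩, h7⟩, rfl⟩ | ⟨m, ⟨⟨h5, h6⟩, h7⟩, rfl⟩ | ⟨rfl, h7⟩)
      · exact ⟨⟨by omega, by omega⟩, h7⟩
      · refine ⟨⟨by omega, by omega⟩, ?_⟩
        have := h7.neg
        rwa [neg_neg] at this
      · exact ⟨⟨by omega, by omega⟩, h7⟩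
  have hd1 : Disjoint ((((Icc 1 x).filter (fun w : ℕ => (w : ℤ) ≡ -r [ZMOD q])).image (fun w : ℕ => -(w : ℤ))))
      (({0} : Finset ℤ).filter (fun w => w ≡ r [ZMOD q])) := by
    rw [disjoint_left]
    intro w hw hw'
    simp only [mem_filter, mem_image, mem_Icc, mem_singleton] at hw hw'
    obtain ⟨m, ⟨⟨h5, h6⟩, -⟩, rfl⟩ := hw
    omega
  have hd2 : Disjoint (((Icc 1 x).filter (fun w : ℕ => (w : ℤ) ≡ r [ZMOD q])).image (fun w : ℕ => (w : ℤ)))
      ((((Icc 1 x).filter (fun w : ℕ => (w : ℤ) ≡ -r [ZMOD q])).image (fun w : ℕ => -(w : ℤ))) ∪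
      (({0} : Finset ℤ).filter (fun w => w ≡ r [ZMOD q]))) := by
    rw [disjoint_left]
    intro w hw hw'
    simp only [mem_filter, mem_image, mem_Icc, mem_singleton, mem_union] at hw hw'
    obtain ⟨m, ⟨⟨h5, h6⟩, -⟩, rfl⟩ := hw
    rcases hw' with ⟨m', ⟨⟨h7, h8⟩, -⟩, h9⟩ | ⟨h9, -⟩
    · omega
    · omega
  rw [hsplit, sum_union hd2, sum_union hd1, sum_image (fun x _ y _ h => by exact_mod_cast h),
    sum_image (fun x _ y _ h => by
      have h' : -(x : ℤ) = -(y : ℤ) := h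
      omega)]
  have e1 : ∑ w ∈ (Icc 1 x).filter (fun w : ℕ => (w : ℤ) ≡ -r [ZMOD q]), sm a b α u v (-(w : ℤ)) =
      ∑ w ∈ (Icc 1 x).filter (fun w : ℕ => (w : ℤ) ≡ -r [ZMOD q]), sm (fun i => -a i) b (-α) u v w :=
    sum_congr rfl fun w _ => sm_neg a b α u v w
  rw [e1]
  have h5 : |∑ w ∈ ({0} : Finset ℤ).filter (fun w => w ≡ r [ZMOD q]), sm a b α u v w| ≤ 1 := by
    refine (abs_sum_le_sum_abs _ _).trans ((sum_le_sum fun w _ => sm_le a b α hu huv hv _).trans ?_)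
    rw [sum_const, nsmul_eq_mul, mul_one]
    have : (({0} : Finset ℤ).filter (fun w => w ≡ r [ZMOD q])).card ≤ 1 :=
      (card_filter_le _ _).trans (by rw [card_singleton])
    exact_mod_cast this
  have h6 : 1 ≤ ε / 3 * N := by
    have h7 : 3 / ε ≤ N := hN₃.trans (by exact_mod_cast (by omega : N₃ ≤ N))
    rw [div_le_iff₀ hε] at h7
    linarith
  have h7 := abs_add_three (∑ w ∈ (Icc 1 x).filter (fun w : ℕ => (w : ℤ) ≡ r [ZMOD q]), sm a b α u v w)
    (∑ w ∈ (Icc 1 x).filter (fun w : ℕ => (w : ℤ) ≡ -r [ZMOD q]), sm (fun i => -a i) b (-α) u v w)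
    (∑ w ∈ ({0} : Finset ℤ).filter (fun w => w ≡ r [ZMOD q]), sm a b α u v w)
  rw [← add_assoc]
  linarith

/-- one exceptional set for a sequence of irrational numbers -/
theorem ex_all (α : ℕ → ℝ) (hα : ∀ j, Irrational (α j)) : ∃ E : Set ℕ, LZ E ∧ ∀ t, Ex (α t) E ∧ Ex (-α t) E := by
  have hfr : ∀ (t q : ℕ) (s : ℝ), (s = 1 ∨ s = -1) → Irrational (Int.fract (((q + 1 : ℕ) : ℝ) * (s * α t))) := by
    intro t q s hs
    have h0 : Irrational (s * α t) := by
      rcases hs with rfl | rfl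
      · rw [one_mul]; exact hα t
      · rw [neg_one_mul]; exact (hα t).neg
    have h1 : Irrational (((q + 1 : ℕ) : ℝ) * (s * α t)) := by
      have h2 : Irrational ((((q + 1 : ℕ) : ℤ) : ℝ) * (s * α t)) := h0.intCast_mul (by omega)
      exact_mod_cast h2
    unfold Int.fract
    exact h1.sub_intCast _
  set β : ℕ → ℝ := fun m => match (Encodable.decode m : Option (ℕ × ℕ × Bool)) with
    | some z => Int.fract (((z.2.1 + 1 : ℕ) : ℝ) * ((if z.2.2 = true then 1 else -1) * α z.1))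
    | none => Real.sqrt 2 with hβ
  have hβirr : ∀ m, Irrational (β m) := by
    intro m
    rw [hβ]
    simp only
    cases (Encodable.decode m : Option (ℕ × ℕ × Bool)) with
    | none => exact irrational_sqrt_two
    | some z =>
      apply hfr
      split_ifs
      · left; rfl
      · right; rfl
  obtain ⟨E, hE, h1⟩ := noph_all (fun _ => lamN) (fun _ => lamN_flip) β hβirr
  refine ⟨E, hE, fun t => ⟨fun q hq k A B hA => ?_, fun q hq k A B hA => ?_⟩⟩
  · have h2 := h1 (Encodable.encode ((t, q - 1, true) : ℕ × ℕ × Bool)) k (fun _ => 0) A B hA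
    have h3 : β (Encodable.encode ((t, q - 1, true) : ℕ × ℕ × Bool)) = Int.fract ((q : ℝ) * α t) := by
      rw [hβ]
      simp only [Encodable.encodek, if_true, one_mul]
      rw [show q - 1 + 1 = q by omega]
    rw [h3] at h2
    exact h2
  · have h2 := h1 (Encodable.encode ((t, q - 1, false) : ℕ × ℕ × Bool)) k (fun _ => 0) A B hA
    have h3 : β (Encodable.encode ((t, q - 1, false) : ℕ × ℕ × Bool)) = Int.fract ((q : ℝ) * (-α t)) := by
      rw [hβ]
      simp only [Encodable.encodek, Bool.false_eq_true, if_false, neg_one_mul]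
      rw [show q - 1 + 1 = q by omega]
    rw [h3] at h2
    exact h2

open Polynomial in
/-- the values of a polynomial with rational roots -/
theorem splits_val (f : ℤ[X]) (hf : f ≠ 0) (hs : (f.map (Int.castRingHom ℚ)).Splits) :
    ∃ (d : ℕ) (a b : Fin d → ℤ) (s : ℤ), (∀ i, a i ≠ 0) ∧ |s| ≤ 1 ∧
      ∀ v : ℤ, lamZ (f.eval v) = s * lamZ (∏ i, (a i * v + b i)) := by
  set g := f.map (Int.castRingHom ℚ) with hg
  have hinj : Function.Injective (Int.castRingHom ℚ) := (Int.castRingHom ℚ).injective_int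
  have hlc : g.leadingCoeff = ((f.leadingCoeff : ℤ) : ℚ) := by
    rw [hg, leadingCoeff_map_of_injective hinj]
    rfl
  have hf0 : f.leadingCoeff ≠ 0 := leadingCoeff_ne_zero.2 hf
  obtain ⟨l, hl⟩ := Quot.exists_rep g.roots
  have hl' : g.roots = (l : Multiset ℚ) := hl.symm
  set ρ : Fin l.length → ℚ := fun i => l.get i with hρ
  have hval : ∀ v : ℤ, ((f.eval v : ℤ) : ℚ) = f.leadingCoeff * ∏ i, ((v : ℚ) - ρ i) := by
    intro v
    have h1 := hs.eval_eq_prod_roots (v : ℚ)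
    have h2 : g.eval (v : ℚ) = ((f.eval v : ℤ) : ℚ) := by
      rw [hg]
      have := eval_intCast_map (Int.castRingHom ℚ) f v
      simpa using this
    rw [h2, hlc, hl', Multiset.map_coe, Multiset.prod_coe] at h1
    rw [h1]
    congr 1
    rw [hρ, ← List.prod_ofFn]
    congr 1
    conv_lhs => rw [← List.ofFn_get l]
    rw [List.map_ofFn]
    rfl
  refine ⟨l.length, fun i => ((ρ i).den : ℤ), fun i => -(ρ i).num,
    lamZ (∏ i, ((ρ i).den : ℤ)) * lamZ f.leadingCoeff, fun i => by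
      have h0 := (ρ i).den_nz
      show ((ρ i).den : ℤ) ≠ 0
      exact_mod_cast h0, ?_, fun v => ?_⟩
  · rw [abs_mul]
    exact mul_le_one₀ (lamZ_abs _) (abs_nonneg _) (lamZ_abs _)
  · have hden : (∏ i, ((ρ i).den : ℤ)) ≠ 0 := prod_ne_zero_iff.2 fun i _ => by
      have h0 := (ρ i).den_nz
      show ((ρ i).den : ℤ) ≠ 0
      exact_mod_cast h0
    have h1 : (∏ i, ((ρ i).den : ℤ)) * f.eval v = f.leadingCoeff * ∏ i, (((ρ i).den : ℤ) * v + -(ρ i).num) := by
      have h2 : (((∏ i, ((ρ i).den : ℤ)) * f.eval v : ℤ) : ℚ) =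
          ((f.leadingCoeff * ∏ i, (((ρ i).den : ℤ) * v + -(ρ i).num) : ℤ) : ℚ) := by
        push_cast
        rw [hval v]
        have h3 : ∀ i, ((ρ i).den : ℚ) * v + -((ρ i).num : ℚ) = ((ρ i).den : ℚ) * (v - ρ i) := by
          intro i
          have h4 : ((ρ i).den : ℚ) * ρ i = (ρ i).num := by
            rw [mul_comm]
            exact Rat.mul_den_eq_num (ρ i)
          rw [mul_sub, h4]
          ring
        simp only [h3]
        rw [prod_mul_distrib]
        ring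
      exact_mod_cast h2
    have h2 := congrArg lamZ h1
    rw [lamZ_mul, lamZ_mul] at h2
    have h3 : lamZ (∏ i, ((ρ i).den : ℤ)) * lamZ (∏ i, ((ρ i).den : ℤ)) = 1 := by
      rw [lamZ_eq hden]
      unfold lamN
      rw [← pow_add, ← two_mul, pow_mul]
      norm_num
    calc lamZ (f.eval v) = (lamZ (∏ i, ((ρ i).den : ℤ)) * lamZ (∏ i, ((ρ i).den : ℤ))) * lamZ (f.eval v) := by
          rw [h3, one_mul]
      _ = lamZ (∏ i, ((ρ i).den : ℤ)) * (lamZ (∏ i, ((ρ i).den : ℤ)) * lamZ (f.eval v)) := by ring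
      _ = lamZ (∏ i, ((ρ i).den : ℤ)) * (lamZ f.leadingCoeff *
          lamZ (∏ i, (((ρ i).den : ℤ) * v + -(ρ i).num))) := by rw [h2]
      _ = _ := by ring

end Pool.Agent.P8H6.Irr
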