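import Pool.Agent.P8H6.Irr.Bohr

/-!
# Intervals, all partial sums
-/

set_option autoImplicit false

namespace Pool.Agent.P8H6.Irr

open Finset Filter Topology
open Pool.Agent.TH112.BL (Bd)
open Pool.Agent.Y958.TC
open Pool.Agent.Y958.U (LZ)
open Pool.Agent.Y842.EL (LZ_mono LZ_diag' LZ_empty)

/-- all partial sums -/
def NoPhS (F : ℕ → ℝ) (α : ℝ) (E : Set ℕ) : Prop :=
  ∀ j : ℤ, j ≠ 0 → ∀ θ : ℝ, (θ = 0 ∨ θ = -(1 / 4)) → ∀ ε : ℝ, 0 < ε →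
    ∃ N₀ : ℕ, ∀ N : ℕ, N₀ ≤ N → N ∉ E → ∀ y ≤ N, |∑ n ∈ range y, F n * ph θ (j * α * n)| ≤ ε * N

/-- the scales `y` between `η N` and `N`, `N ∉ E` -/
def nb (η : ℝ) (E : Set ℕ) : Set ℕ := {y | ∀ N : ℕ, N ∉ E → η * N ≤ y → ¬ y ≤ N}

lemma NoPhS.nb {F : ℕ → ℝ} {α : ℝ} {E : Set ℕ} (h : NoPhS F α E) {η : ℝ} (hη : 0 < η) : NoPh F α (nb η E) := by
  intro j hj θ hθ ε hε
  obtain ⟨N₀, h1⟩ := h j hj θ hθ (ε * η) (by positivity)
  refine ⟨N₀, fun y hy hyE => ?_⟩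
  unfold Irr.nb at hyE
  simp only [Set.mem_ofPred_eq, not_forall, not_not] at hyE
  obtain ⟨N, hN1, hN2, hN3⟩ := hyE
  refine (h1 N (by omega) hN1 y hN3).trans ?_
  calc ε * η * N = ε * (η * N) := by ring
    _ ≤ ε * y := mul_le_mul_of_nonneg_left hN2 hε.le

lemma cl_big {W : ℕ} (hW : 1 ≤ W) (α : ℝ) {j : ℕ} (hj : W ≤ j) (n : ℕ) : cl W α j n = 0 := by
  unfold cl
  rw [if_neg]
  intro h
  have := Nat.mod_lt ⌊W * α * (n : ℝ)⌋₊ hW
  omega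

lemma card_diff {W : ℕ} {u v : ℝ} (hu : 0 ≤ u) (huv : u ≤ v) (hW : 1 ≤ W) :
    |(((Ioo ⌊W * u⌋₊ ⌊W * v⌋₊).card : ℕ) : ℝ) / W - (v - u)| ≤ 2 / W := by
  have hW0 : (0 : ℝ) < W := by exact_mod_cast hW
  have u1 : ((⌊W * u⌋₊ : ℕ) : ℝ) ≤ W * u := Nat.floor_le (by positivity)
  have u2 : W * u < ⌊W * u⌋₊ + 1 := Nat.lt_floor_add_one _
  have v1 : ((⌊W * v⌋₊ : ℕ) : ℝ) ≤ W * v := Nat.floor_le (mul_nonneg hW0.le (hu.trans huv))
  have v2 : W * v < ⌊W * v⌋₊ + 1 := Nat.lt_floor_add_one _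
  have huv' : ⌊W * u⌋₊ ≤ ⌊W * v⌋₊ := Nat.floor_le_floor (mul_le_mul_of_nonneg_left huv hW0.le)
  rw [Nat.card_Ioo]
  have e : (((⌊W * v⌋₊ - ⌊W * u⌋₊ - 1 : ℕ) : ℝ)) / W - (v - u) =
      (((⌊W * v⌋₊ - ⌊W * u⌋₊ - 1 : ℕ) : ℝ) - (W * v - W * u)) / W := by
    field_simp
  rw [e, abs_div, abs_of_pos hW0]
  apply div_le_div_of_nonneg_right _ hW0.le
  have huvr : ((⌊W * u⌋₊ : ℕ) : ℝ) ≤ (⌊W * v⌋₊ : ℕ) := by exact_mod_cast huv'
  rcases Nat.eq_or_lt_of_le huv' with h | h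
  · have h1 : ⌊W * v⌋₊ - ⌊W * u⌋₊ - 1 = 0 := by omega
    rw [h1, Nat.cast_zero]
    have h2 : ((⌊W * u⌋₊ : ℕ) : ℝ) = (⌊W * v⌋₊ : ℕ) := by exact_mod_cast h
    rw [abs_le]
    constructor <;> linarith
  · have h1 : ((⌊W * v⌋₊ - ⌊W * u⌋₊ - 1 : ℕ) : ℝ) = (⌊W * v⌋₊ : ℕ) - (⌊W * u⌋₊ : ℕ) - 1 := by
      rw [Nat.cast_sub (by omega), Nat.cast_sub huv']
      norm_num
    rw [h1, abs_le]
    constructor <;> linarith

/-- **intervals**, one kind of scales -/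
theorem interval (F : ℕ → ℝ) (hF : ∀ n, |F n| ≤ 1) (E : Set ℕ) {α : ℝ} (hα : Irrational α) (h0 : 0 < α)
    (h : NoPh F α E) (h' : NoPh (fun _ => 1) α E) (ε : ℝ) (hε : 0 < ε) :
    ∃ N₀ : ℕ, ∀ N : ℕ, N₀ ≤ N → N ∉ E → ∀ u v : ℝ, 0 ≤ u → u ≤ v → v ≤ 1 →
      |∑ n ∈ range N, F n * (iv' α u v n - (v - u))| ≤ ε * N := by
  classical
  obtain ⟨W, hW⟩ := exists_nat_gt (16 / ε)
  have hW0 : (0 : ℝ) < W := lt_trans (by positivity) hW
  have hW1 : 1 ≤ W := by exact_mod_cast hW0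
  have hWε : 4 / (W : ℝ) ≤ ε / 4 := by
    rw [div_lt_iff₀ hε] at hW
    rw [div_le_iff₀ hW0]
    linarith
  set ε₂ : ℝ := ε / (8 * W) with hε₂
  have hε₂0 : 0 < ε₂ := by positivity
  have h1 : ∀ j : Fin W, ∃ N₀ : ℕ, ∀ N : ℕ, N₀ ≤ N → N ∉ E →
      |∑ n ∈ range N, F n * (cl W α j n - 1 / W)| ≤ ε₂ * N := fun j => cell F hF E hα h0 h hW1 j.2 ε₂ hε₂0
  have h2 : ∀ j : Fin W, ∃ N₀ : ℕ, ∀ N : ℕ, N₀ ≤ N → N ∉ E →
      |∑ n ∈ range N, (1 : ℝ) * (cl W α j n - 1 / W)| ≤ ε₂ * N := fun j =>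
    cell (fun _ => 1) (fun _ => by norm_num) E hα h0 h' hW1 j.2 ε₂ hε₂0
  choose A hA using h1
  choose B hB using h2
  refine ⟨∑ j, A j + ∑ j, B j, fun N hN hNE u v hu huv hv => ?_⟩
  have hAj : ∀ j, A j ≤ N := fun j => by
    have := single_le_sum (f := A) (fun _ _ => Nat.zero_le _) (mem_univ j)
    omega
  have hBj : ∀ j, B j ≤ N := fun j => by
    have := single_le_sum (f := B) (fun _ _ => Nat.zero_le _) (mem_univ j)
    omega
  have hNr : (0 : ℝ) ≤ N := Nat.cast_nonneg N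
  -- the cells
  have hcell : ∀ j < W, |∑ n ∈ range N, F n * (cl W α j n - 1 / W)| ≤ ε₂ * N := fun j hj =>
    hA ⟨j, hj⟩ N (hAj _) hNE
  have hcount : ∀ j, ∑ n ∈ range N, cl W α j n ≤ (1 / W + ε₂) * N := by
    intro j
    rcases Nat.lt_or_ge j W with hj | hj
    · have h3 := hB ⟨j, hj⟩ N (hBj _) hNE
      simp only [one_mul] at h3
      rw [sum_sub_distrib, sum_const, card_range, nsmul_eq_mul] at h3
      have h4 := (abs_le.1 h3).2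
      have h5 : (N : ℝ) * (1 / W) = 1 / W * N := by ring
      rw [h5] at h4
      linarith
    · rw [sum_congr rfl fun n _ => cl_big hW1 α hj n, sum_const_zero]
      positivity
  set a := ⌊W * u⌋₊ with ha
  set b := ⌊W * v⌋₊ with hb
  have hbW : b ≤ W := by
    have h3 : (b : ℝ) ≤ W * v := Nat.floor_le (mul_nonneg hW0.le (hu.trans huv))
    have h4 : (W : ℝ) * v ≤ W := by nlinarith
    exact_mod_cast h3.trans h4
  -- the decomposition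
  have e1 : ∑ n ∈ range N, F n * (iv' α u v n - (v - u)) =
      ∑ n ∈ range N, F n * (iv' α u v n - ∑ j ∈ Ioo a b, cl W α j n) +
      ∑ j ∈ Ioo a b, ∑ n ∈ range N, F n * (cl W α j n - 1 / W) +
      (((Ioo a b).card : ℝ) / W - (v - u)) * ∑ n ∈ range N, F n := by
    rw [sum_comm, mul_sum, ← sum_add_distrib, ← sum_add_distrib]
    refine sum_congr rfl fun n _ => ?_
    have e2 : ∑ j ∈ Ioo a b, F n * (cl W α j n - 1 / W) =
        F n * ∑ j ∈ Ioo a b, cl W α j n - F n * (((Ioo a b).card : ℝ) / W) := by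
      rw [← mul_sum, sum_sub_distrib, sum_const, nsmul_eq_mul]
      ring
    rw [e2]
    ring
  have b1 : |∑ n ∈ range N, F n * (iv' α u v n - ∑ j ∈ Ioo a b, cl W α j n)| ≤ 2 * ((1 / W + ε₂) * N) := by
    refine (abs_sum_le_sum_abs _ _).trans ?_
    have h3 : ∀ n ∈ range N, |F n * (iv' α u v n - ∑ j ∈ Ioo a b, cl W α j n)| ≤ cl W α a n + cl W α b n := by
      intro n _
      rw [abs_mul]
      calc |F n| * |iv' α u v n - ∑ j ∈ Ioo a b, cl W α j n| ≤ 1 * (cl W α a n + cl W α b n) :=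
            mul_le_mul (hF n) (iv_cells hW1 h0 hu (hu.trans huv) n) (abs_nonneg _) zero_le_one
        _ = _ := one_mul _
    refine (sum_le_sum h3).trans ?_
    rw [sum_add_distrib]
    linarith [hcount a, hcount b]
  have b2 : |∑ j ∈ Ioo a b, ∑ n ∈ range N, F n * (cl W α j n - 1 / W)| ≤ W * (ε₂ * N) := by
    refine (abs_sum_le_sum_abs _ _).trans ?_
    have h3 : ∀ j ∈ Ioo a b, |∑ n ∈ range N, F n * (cl W α j n - 1 / W)| ≤ ε₂ * N := by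
      intro j hj
      rw [mem_Ioo] at hj
      exact hcell j (by omega)
    refine (sum_le_sum h3).trans ?_
    rw [sum_const, nsmul_eq_mul]
    apply mul_le_mul_of_nonneg_right _ (by positivity)
    rw [Nat.card_Ioo]
    exact_mod_cast (by omega : b - a - 1 ≤ W)
  have b3 : |(((Ioo a b).card : ℝ) / W - (v - u)) * ∑ n ∈ range N, F n| ≤ 2 / W * N := by
    rw [abs_mul]
    apply mul_le_mul (card_diff hu huv hW1) _ (abs_nonneg _) (by positivity)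
    refine (abs_sum_le_sum_abs _ _).trans ((sum_le_sum fun n _ => hF n).trans (le_of_eq ?_))
    simp
  rw [e1]
  have h4 := abs_add_three (∑ n ∈ range N, F n * (iv' α u v n - ∑ j ∈ Ioo a b, cl W α j n))
    (∑ j ∈ Ioo a b, ∑ n ∈ range N, F n * (cl W α j n - 1 / W))
    ((((Ioo a b).card : ℝ) / W - (v - u)) * ∑ n ∈ range N, F n)
  have h5 : 2 * ((1 / (W : ℝ) + ε₂) * N) + W * (ε₂ * N) + 2 / W * N ≤ ε * N := by
    have h6 : (W : ℝ) * ε₂ = ε / 8 := by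
      rw [hε₂]
      field_simp
    have h7 : ε₂ ≤ ε / 8 := by
      rw [hε₂]
      have : (1 : ℝ) ≤ W := by exact_mod_cast hW1
      rw [div_le_div_iff₀ (by positivity) (by norm_num)]
      nlinarith
    have h8 : 2 * ((1 / (W : ℝ) + ε₂) * N) + W * (ε₂ * N) + 2 / W * N =
        (4 / W + 2 * ε₂ + W * ε₂) * N := by ring
    rw [h8]
    apply mul_le_mul_of_nonneg_right _ hNr
    rw [h6]
    linarith
  linarith

lemma iv_le (α u v : ℝ) (n : ℕ) (hu : 0 ≤ u) (huv : u ≤ v) (hv : v ≤ 1) : |iv' α u v n - (v - u)| ≤ 1 := by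
  unfold iv'
  rw [abs_le]
  split_ifs <;> constructor <;> linarith

/-- **intervals**, all partial sums -/
theorem intervalS (F : ℕ → ℝ) (hF : ∀ n, |F n| ≤ 1) (E : Set ℕ) {α : ℝ} (hα : Irrational α) (h0 : 0 < α)
    (h : NoPhS F α E) (h' : NoPhS (fun _ => 1) α E) (ε : ℝ) (hε : 0 < ε) :
    ∃ N₀ : ℕ, ∀ N : ℕ, N₀ ≤ N → N ∉ E → ∀ y ≤ N, ∀ u v : ℝ, 0 ≤ u → u ≤ v → v ≤ 1 →
      |∑ n ∈ range y, F n * (iv' α u v n - (v - u))| ≤ ε * N := by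
  obtain ⟨N₁, h1⟩ := interval F hF _ hα h0 (h.nb hε) (h'.nb hε) ε hε
  obtain ⟨N₂, hN₂⟩ := exists_nat_ge (N₁ / ε)
  refine ⟨N₂, fun N hN hNE y hy u v hu huv hv => ?_⟩
  have htriv : |∑ n ∈ range y, F n * (iv' α u v n - (v - u))| ≤ y := by
    refine (abs_sum_le_sum_abs _ _).trans ((sum_le_sum fun n _ => mul_le' (hF n) (iv_le α u v n hu huv hv)).trans
      (le_of_eq ?_))
    simp
  have hyN : (y : ℝ) ≤ N := by exact_mod_cast hy
  rcases Nat.lt_or_ge y N₁ with hyN1 | hyN1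
  · refine htriv.trans ?_
    have h2 : (N₁ : ℝ) / ε ≤ N := hN₂.trans (by exact_mod_cast hN)
    rw [div_le_iff₀ hε] at h2
    have h3 : (y : ℝ) ≤ N₁ := by exact_mod_cast hyN1.le
    linarith
  rcases lt_or_ge (y : ℝ) (ε * N) with h2 | h2
  · exact htriv.trans h2.le
  · have h3 : y ∉ nb ε E := by
      unfold nb
      simp only [Set.mem_ofPred_eq, not_forall, not_not]
      exact ⟨N, hNE, h2, hy⟩
    exact (h1 y hyN1 h3 u v hu huv hv).trans (mul_le_mul_of_nonneg_left hyN hε.le)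

/-- the hypotheses hold outside one exceptional set -/
theorem noph_all (f : ℕ → ℕ → ℤ) (hf : ∀ j, Flip (f j)) (α : ℕ → ℝ) (hα : ∀ j, Irrational (α j)) :
    ∃ E : Set ℕ, LZ E ∧ ∀ (t k : ℕ) (s a b : Fin k → ℕ), (∀ i, 1 ≤ a i) →
      NoPhS (fun n => ∏ i, (f (s i) (a i * n + b i) : ℝ)) (α t) E := by
  obtain ⟨E, hE, h1⟩ := LZ_diag' (ι := (ℕ × ℕ × ℤ × Bool) × (Σ k : ℕ, (Fin k → ℕ × ℕ × ℕ)))
    (fun z => {N : ℕ | z.1.2.2.1 ≠ 0 ∧ ∃ y : ℕ, y ≤ N ∧ 1 / ((z.1.2.1 : ℝ) + 1) * N <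
      |∑ n ∈ range y, psi (fun i => f (z.2.2 i).1) (fun i => (z.2.2 i).2.1 + 1) (fun i => (z.2.2 i).2.2)
        (z.1.2.2.1 * α z.1.1) (if z.1.2.2.2 = true then 0 else -(1 / 4)) n|})
    (fun z => by
      by_cases hz : z.1.2.2.1 = 0
      · refine LZ_mono ?_ LZ_empty
        rintro N ⟨h, -⟩
        exact h hz
      · refine LZ_mono ?_ (irr_sup (fun i => f (z.2.2 i).1) (fun i => (z.2.2 i).2.1 + 1)
          (fun i => (z.2.2 i).2.2) (z.1.2.2.1 * α z.1.1) (if z.1.2.2.2 = true then 0 else -(1 / 4))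
          (fun i => hf _) (fun i => Nat.le_add_left 1 _) ((hα z.1.1).intCast_mul hz)
          (1 / ((z.1.2.1 : ℝ) + 1)) (by positivity) (by
            rw [div_le_one (by positivity)]
            have : (0 : ℝ) ≤ z.1.2.1 := Nat.cast_nonneg _
            linarith))
        rintro N ⟨-, h⟩
        exact h)
  refine ⟨E, hE, fun t k s a b ha j hj θ hθ ε hε => ?_⟩
  obtain ⟨m, hm⟩ := exists_nat_gt (1 / ε)
  obtain ⟨N₁, hN₁⟩ := h1 ((t, m, j, true), ⟨k, fun i => (s i, a i - 1, b i)⟩)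
  obtain ⟨N₂, hN₂⟩ := h1 ((t, m, j, false), ⟨k, fun i => (s i, a i - 1, b i)⟩)
  refine ⟨N₁ + N₂, fun N hN hNE y hy => ?_⟩
  have ha' : ∀ i, a i - 1 + 1 = a i := fun i => by
    have := ha i
    omega
  have hm0 : (0 : ℝ) < (m : ℝ) + 1 := by positivity
  have hm1 : 1 / ((m : ℝ) + 1) ≤ ε := by
    rw [div_le_iff₀ hm0]
    rw [div_lt_iff₀ hε] at hm
    nlinarith
  by_contra hcon
  rw [not_le] at hcon
  have hcon2 : 1 / ((m : ℝ) + 1) * N <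
      |∑ n ∈ range y, (∏ i, (f (s i) (a i * n + b i) : ℝ)) * ph θ (j * α t * n)| :=
    lt_of_le_of_lt (mul_le_mul_of_nonneg_right hm1 (Nat.cast_nonneg N)) hcon
  apply hNE
  rcases hθ with rfl | rfl
  · apply hN₁ N (by omega)
    refine ⟨hj, y, hy, ?_⟩
    simp only [ha', if_true]
    exact hcon2
  · apply hN₂ N (by omega)
    refine ⟨hj, y, hy, ?_⟩
    simp only [ha', Bool.false_eq_true, if_false]
    exact hcon2

end Pool.Agent.P8H6.Irr
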