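import Pool.Agent.P8H6.Irr.Scale
import Pool.Agent.Y304.U.Avc
import Pool.Agent.Y304.U.Pw

/-!
# The sums are small at almost all scales, for one irrational phase
-/

set_option autoImplicit false

namespace Pool.Agent.P8H6.Irr

open Finset Filter Topology
open Pool.Agent.TH112.BL (Bd QD win)
open Pool.Agent.Y958.TC
open Pool.Agent.Y958.U (LZ S_AVC QQ)

/-- the functions: values `-1, 0, 1`, and `f (p n) = ± f n` for the large primes `p` which do not divide `n`, the
sign depends on `p` only -/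
structure Flip (f : ℕ → ℤ) : Prop where
  bd : ∀ n, |f n| ≤ 1
  fl : ∃ (P₀ : ℕ) (c : ℕ → ℤ), ∀ p : ℕ, p.Prime → P₀ ≤ p → |c p| = 1 ∧ ∀ n, ¬ p ∣ n → f (p * n) = c p * f n

section fin

variable {k : ℕ} (f : Fin k → ℕ → ℤ) (a b : Fin k → ℕ) (α θ : ℝ)

/-- the summands -/
noncomputable def psi (n : ℕ) : ℝ := (∏ i, (f i (a i * n + b i) : ℝ)) * ph θ (α * n)

variable {f} in
lemma psi_le (hb : ∀ i n, |f i n| ≤ 1) (n : ℕ) : |psi f a b α θ n| ≤ 1 := by
  unfold psi
  refine mul_le' (prod_le _ fun i => ?_) (ph_le _ _)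
  exact_mod_cast hb i _

lemma exists_x {p a b : ℕ} (hp : p.Prime) (ha : 1 ≤ a) (hap : a < p) : ∃ x : ℕ, ∀ m : ℕ, p ∣ a * m + b → p ∣ m + x := by
  have hcop : Nat.Coprime a p := by
    rw [Nat.coprime_comm, Nat.Prime.coprime_iff_not_dvd hp]
    exact fun h => absurd (Nat.le_of_dvd (by omega) h) (by omega)
  have : Fact p.Prime := ⟨hp⟩
  refine ⟨(((a : ZMod p)⁻¹) * b).val, fun m hm => ?_⟩
  have hne : (a : ZMod p) ≠ 0 := by
    intro h
    rw [ZMod.natCast_eq_zero_iff] at h
    exact absurd (Nat.le_of_dvd (by omega) h) (by omega)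
  rw [← ZMod.natCast_eq_zero_iff] at hm ⊢
  push_cast at hm ⊢
  rw [ZMod.natCast_zmod_val]
  have h1 : (a : ZMod p) * ((m : ZMod p) + (a : ZMod p)⁻¹ * b) = 0 := by
    rw [mul_add, ← mul_assoc, mul_inv_cancel₀ hne, one_mul]
    exact hm
  rcases mul_eq_zero.1 h1 with h2 | h2
  · exact absurd h2 hne
  · exact h2

/-- **one irrational phase** -/
theorem irr_one (hA : S_AVC) (hf : ∀ i, Flip (f i)) (ha : ∀ i, 1 ≤ a i) (h0 : 0 < α) (h1 : α < 1)
    (hα : Irrational α) (δ : ℝ) (hδ : 0 < δ) : LZ {N | δ < |Av N (psi f a b α θ)|} := by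
  classical
  by_contra hcon
  set E : Set ℕ := {N | δ < |Av N (psi f a b α θ)|} with hEd
  have hLZ0 : LZ (∅ : Set ℕ) := by
    unfold LZ
    simp
  obtain ⟨ε', hε', I₀, hAv⟩ := hA E ∅ hcon hLZ0
  have hb : ∀ i n, |f i n| ≤ 1 := fun i n => (hf i).bd n
  choose P₀ sc hsc using fun i => (hf i).fl
  -- the constants
  set A : ℕ := 1 + ∑ i, a i with hAd
  have hAa : ∀ i, a i ≤ A := by
    intro i
    have := single_le_sum (f := a) (fun _ _ => Nat.zero_le _) (mem_univ i)
    omega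
  haveI : NeZero A := ⟨by omega⟩
  set c : ℕ := 2 * (1 + ∑ i, b i) with hc
  have hcb : ∀ i, 2 * (1 + b i) ≤ c := by
    intro i
    have := single_le_sum (f := b) (fun _ _ => Nat.zero_le _) (mem_univ i)
    omega
  set ε : ℝ := ε' * δ / 8 with hε
  have hε0 : 0 < ε := by positivity
  set η : ℝ := (ε / 30) * ε / 3 with hη
  have hη0 : 0 < η := by positivity
  have hlim : Tendsto (fun i : ℕ => (i : ℝ) / 2 ^ i) atTop (𝓝 0) := by
    have := tendsto_pow_const_div_const_pow_of_one_lt 1 (show (1 : ℝ) < 2 by norm_num)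
    simpa using this
  have hlim2 : Tendsto (fun i : ℕ => (3 * (2 * k + 2 * Real.pi) : ℝ) / 2 ^ i) atTop (𝓝 0) := by
    have h1 := tendsto_pow_const_div_const_pow_of_one_lt 0 (show (1 : ℝ) < 2 by norm_num)
    have h2 := h1.const_mul (3 * (2 * k + 2 * Real.pi) : ℝ)
    simp only [pow_zero, mul_zero] at h2
    refine h2.congr fun i => ?_
    ring
  obtain ⟨I₂, hI₂⟩ := eventually_atTop.1 (hlim.eventually_lt_const hη0)
  obtain ⟨I₃, hI₃⟩ := eventually_atTop.1 (hlim2.eventually_lt_const hε0)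
  set i₀ : ℕ := I₀ + I₂ + I₃ + A + (∑ i, P₀ i) + 1 with hi₀
  set LA : ℝ := Real.log (Fintype.card ((Fin k → Fin A → SignType) × Fin 2)) with hLA
  have hLA0 : 0 ≤ LA := Real.log_natCast_nonneg _
  set B : ℝ := c * LA / η with hB
  have hB0 : 0 ≤ B := by positivity
  obtain ⟨i₁, hi₁, hS⟩ := sum_inv_large i₀ (by omega) (8 * B / (ε' * δ) * 3)
  set S : ℝ := ∑ i ∈ Ico i₀ i₁, (1 : ℝ) / i with hSd
  obtain ⟨𝓤, hU, hmem⟩ := exists_ultra _ (fun M₀ => by
    obtain ⟨M, hM1, hM2, hM3⟩ := hAv i₀ i₁ (by omega) hi₁ M₀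
    exact ⟨M, hM1, hM3⟩ : ∀ M₀ : ℕ, ∃ M, M₀ ≤ M ∧ M ∈ {M : ℕ | ε' * S ≤
      ∑ i ∈ Ico i₀ i₁, (1 : ℝ) / i * ∑ p ∈ QQ i, Real.log p / 2 ^ i * (if M / p ∈ E then 1 else 0)})
  set ψ : ℕ → ℝ := psi f a b α θ with hψd
  have hψ : ∀ n, |ψ n| ≤ 1 := psi_le a b α θ hb
  have hw0 : ∀ i, ∀ p ∈ QD i (i + 1), 0 ≤ Real.log (p : ℝ) / 2 ^ i := fun i p _ =>
    div_nonneg (Real.log_natCast_nonneg _) (by positivity)
  -- the limit inequality
  have hlimineq : ε' * S ≤ ∑ i ∈ Ico i₀ i₁, (1 : ℝ) / i *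
      ∑ p ∈ QD i (i + 1), Real.log p / 2 ^ i * (|sS 𝓤 ψ p| / δ) := by
    have h1 : Tendsto (fun M => ∑ i ∈ Ico i₀ i₁, (1 : ℝ) / i *
        ∑ p ∈ QD i (i + 1), Real.log p / 2 ^ i * (|Av (M / p) ψ| / δ)) 𝓤
        (𝓝 (∑ i ∈ Ico i₀ i₁, (1 : ℝ) / i *
        ∑ p ∈ QD i (i + 1), Real.log p / 2 ^ i * (|sS 𝓤 ψ p| / δ))) := by
      apply tendsto_finsetSum
      intro i _
      apply Tendsto.const_mul
      apply tendsto_finsetSum
      intro p _
      apply Tendsto.const_mul
      apply Tendsto.div_const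
      exact (sS_tendsto 𝓤 hψ p).abs
    apply ge_of_tendsto h1
    filter_upwards [hmem] with M hM
    refine le_trans hM ?_
    apply sum_le_sum
    intro i _
    apply mul_le_mul_of_nonneg_left _ (by positivity)
    apply sum_le_sum
    intro p hp
    apply mul_le_mul_of_nonneg_left _ (hw0 i p hp)
    split_ifs with hME
    · rw [le_div_iff₀ hδ, one_mul]
      exact le_of_lt hME
    · positivity
  have hs1 : ∀ p, |sS 𝓤 ψ p| ≤ 1 := by
    intro p
    apply le_of_tendsto (sS_tendsto 𝓤 hψ p).abs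
    filter_upwards with M
    exact Av_bd zero_le_one hψ _
  -- good scales
  have hgood : ∀ i ∈ Ico i₀ i₁, Df (um 𝓤 hU) (lt' f a A α) (bb α) (some ()) c i ≤ η * 2 ^ i / i →
      ∑ p ∈ QD i (i + 1), Real.log p / 2 ^ i * (|sS 𝓤 ψ p| / δ) ≤ 2 * ε / δ := by
    intro i hi hD
    rw [mem_Ico] at hi
    have h5 : (0 : ℝ) < 2 ^ i := by positivity
    have hdec := one_scale f a b α θ (um 𝓤 hU) hb ha hAa h0 h1 c (by omega) hcb hε0 i (by omega)
      (hI₂ i (by omega)) hD
    have hcmp : ∀ p ∈ QD i (i + 1), |sS 𝓤 ψ p| ≤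
        |(um 𝓤 hU).m (fun n => GG f a b α θ p (n + (p - n % p) % p))| + (2 * k + 2 * Real.pi) / 2 ^ i := by
      intro p hp
      have hpp := QDp hp
      have hp2 : 2 ^ i < p := by
        unfold QD at hp
        rw [mem_filter, mem_Ioc] at hp
        exact hp.1.1
      have hi2 : i < 2 ^ i := Nat.lt_two_pow_self
      have hpr : (0 : ℝ) < p := by exact_mod_cast hpp.pos
      have hp2r : (2 : ℝ) ^ i ≤ p := by exact_mod_cast hp2.le
      have hsgn : ∀ j, |sc j p| = 1 ∧ ∀ n, ¬ p ∣ n → f j (p * n) = sc j p * f j n := by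
        intro j
        apply hsc j p hpp
        have := single_le_sum (f := P₀) (fun _ _ => Nat.zero_le _) (mem_univ j)
        omega
      have hx : ∀ j, ∃ x : ℕ, ∀ m : ℕ, p ∣ a j * m + b j → p ∣ m + x := fun j =>
        exists_x hpp (ha j) (by
          have := hAa j
          omega)
      choose x hx using hx
      set s : ℝ := ∏ j, (sc j p : ℝ) with hs
      have hs1' : |s| = 1 := by
        rw [hs, abs_prod]
        apply prod_eq_one
        intro j _
        have := (hsgn j).1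
        exact_mod_cast this
      have hHHle : ∀ n, |HH f a b α θ p n| ≤ 1 := fun n => mul_le' (FF_le a b hb _ _) (ph_le _ _)
      have hGGle : ∀ n, |GG f a b α θ p n| ≤ 1 := fun n => mul_le' (FF_le a b hb _ _) (ph_le _ _)
      have h6 := sS_cmp 𝓤 hU (univ : Finset (Fin k)) x p hpp.pos s hs1'.le (HH f a b α θ p) ψ hHHle hψ (by
        intro m hm
        unfold HH FF
        rw [hψd]
        unfold psi
        rw [← mul_assoc, hs, ← prod_mul_distrib]
        congr 1
        · refine prod_congr rfl fun j _ => ?_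
          have h7 : ¬ p ∣ a j * m + b j := fun h => hm j (mem_univ j) (hx j m h)
          have h8 := (hsgn j).2 _ h7
          rw [show a j * (p * m) + p * b j = p * (a j * m + b j) by ring, h8]
          push_cast
          ring
        · congr 1
          push_cast
          field_simp)
      rw [card_univ, Fintype.card_fin] at h6
      -- comparison of the two phases
      have h7 : |(um 𝓤 hU).m (fun n => HH f a b α θ p (n + (p - n % p) % p)) -
          (um 𝓤 hU).m (fun n => GG f a b α θ p (n + (p - n % p) % p))| ≤ 2 * Real.pi / p := by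
        have hB1 : Bd (fun n => HH f a b α θ p (n + (p - n % p) % p)) := ⟨1, fun n => hHHle _⟩
        have hB2 : Bd (fun n => GG f a b α θ p (n + (p - n % p) % p)) := ⟨1, fun n => hGGle _⟩
        rw [← (um 𝓤 hU).sub hB1 hB2]
        have hB3 : Bd (fun n => HH f a b α θ p (n + (p - n % p) % p) - GG f a b α θ p (n + (p - n % p) % p)) := by
          refine ⟨2, fun n => ?_⟩
          have := abs_sub (HH f a b α θ p (n + (p - n % p) % p)) (GG f a b α θ p (n + (p - n % p) % p))
          linarith [hHHle (n + (p - n % p) % p), hGGle (n + (p - n % p) % p)]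
        refine ((um 𝓤 hU).abs_le hB3).trans ?_
        have h8 : ∀ m : ℕ, |HH f a b α θ p m - GG f a b α θ p m| ≤ 2 * Real.pi / p := by
          intro m
          unfold HH GG
          rw [← mul_sub, abs_mul]
          have h9 := ph_lip θ (α * m / p) ((⌊α * (m : ℝ)⌋₊ : ℝ) / p)
          have h10 : |α * (m : ℝ) / p - (⌊α * (m : ℝ)⌋₊ : ℝ) / p| ≤ 1 / p := by
            rw [← sub_div, abs_div, abs_of_pos hpr]
            apply div_le_div_of_nonneg_right _ hpr.le
            have h11 := Nat.floor_le (mul_nonneg h0.le (Nat.cast_nonneg m) : 0 ≤ α * (m : ℝ))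
            have h12 := Nat.lt_floor_add_one (α * (m : ℝ))
            rw [abs_of_nonneg (by linarith)]
            linarith
          calc |FF f a b p m| * |ph θ (α * m / p) - ph θ ((⌊α * (m : ℝ)⌋₊ : ℝ) / p)| ≤
                1 * (2 * Real.pi * (1 / p)) := by
                apply mul_le_mul (FF_le a b hb _ _) _ (abs_nonneg _) zero_le_one
                exact h9.trans (mul_le_mul_of_nonneg_left h10 Real.two_pi_pos.le)
            _ = 2 * Real.pi / p := by ring
        have h9 := (um 𝓤 hU).mono hB3.abs (Pool.Agent.TH112.BL.Bd.const (2 * Real.pi / p))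
          (fun n => h8 (n + (p - n % p) % p))
        refine h9.trans (le_of_eq ?_)
        have h10 := (um 𝓤 hU).smul (2 * Real.pi / p) (fun _ => 1) (Pool.Agent.TH112.BL.Bd.const 1)
        rw [(um 𝓤 hU).one, mul_one] at h10
        simpa using h10
      have h8 : |sS 𝓤 ψ p| = |s * sS 𝓤 ψ p| := by rw [abs_mul, hs1', one_mul]
      have h9 := abs_sub_abs_le_abs_sub (s * sS 𝓤 ψ p)
        ((um 𝓤 hU).m (fun n => HH f a b α θ p (n + (p - n % p) % p)))
      rw [abs_sub_comm] at h9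
      have h10 := abs_sub_abs_le_abs_sub ((um 𝓤 hU).m (fun n => HH f a b α θ p (n + (p - n % p) % p)))
        ((um 𝓤 hU).m (fun n => GG f a b α θ p (n + (p - n % p) % p)))
      have h11 : (2 : ℝ) * k / p ≤ 2 * k / 2 ^ i := div_le_div_of_nonneg_left (by positivity) h5 hp2r
      have h12 : 2 * Real.pi / p ≤ 2 * Real.pi / 2 ^ i :=
        div_le_div_of_nonneg_left Real.two_pi_pos.le h5 hp2r
      rw [h8, add_div]
      linarith
    have hth : ∑ p ∈ QD i (i + 1), Real.log (p : ℝ) / 2 ^ i ≤ 3 := by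
      rw [← sum_div, div_le_iff₀ h5]
      exact Pool.Agent.TH575.CW.theta_QD i
    have hI3 := hI₃ i (by omega)
    have hpi := Real.pi_pos
    have hsum : ∑ p ∈ QD i (i + 1), Real.log p / 2 ^ i * |sS 𝓤 ψ p| ≤ 2 * ε := by
      calc ∑ p ∈ QD i (i + 1), Real.log p / 2 ^ i * |sS 𝓤 ψ p| ≤
            ∑ p ∈ QD i (i + 1), (Real.log p / 2 ^ i *
              |(um 𝓤 hU).m (fun n => GG f a b α θ p (n + (p - n % p) % p))| +
              Real.log p / 2 ^ i * ((2 * k + 2 * Real.pi) / 2 ^ i)) := by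
              apply sum_le_sum
              intro p hp
              rw [← mul_add]
              exact mul_le_mul_of_nonneg_left (hcmp p hp) (hw0 i p hp)
        _ = ∑ p ∈ QD i (i + 1), Real.log p / 2 ^ i *
              |(um 𝓤 hU).m (fun n => GG f a b α θ p (n + (p - n % p) % p))| +
              (∑ p ∈ QD i (i + 1), Real.log (p : ℝ) / 2 ^ i) * ((2 * k + 2 * Real.pi) / 2 ^ i) := by
              rw [sum_add_distrib, sum_mul]
        _ ≤ ε + 3 * ((2 * k + 2 * Real.pi) / 2 ^ i) := by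
              apply add_le_add hdec
              exact mul_le_mul_of_nonneg_right hth (by positivity)
        _ = ε + 3 * (2 * k + 2 * Real.pi) / 2 ^ i := by ring
        _ ≤ 2 * ε := by linarith
    calc ∑ p ∈ QD i (i + 1), Real.log p / 2 ^ i * (|sS 𝓤 ψ p| / δ) =
          (∑ p ∈ QD i (i + 1), Real.log p / 2 ^ i * |sS 𝓤 ψ p|) / δ := by
          rw [sum_div]
          apply sum_congr rfl
          intro p _
          ring
      _ ≤ 2 * ε / δ := div_le_div_of_nonneg_right hsum hδ.le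
  have hall : ∀ i, ∑ p ∈ QD i (i + 1), Real.log p / 2 ^ i * (|sS 𝓤 ψ p| / δ) ≤ 3 / δ := by
    intro i
    have h5 : (0 : ℝ) < 2 ^ i := by positivity
    calc ∑ p ∈ QD i (i + 1), Real.log p / 2 ^ i * (|sS 𝓤 ψ p| / δ) ≤
          ∑ p ∈ QD i (i + 1), Real.log p / 2 ^ i * (1 / δ) := by
          apply sum_le_sum
          intro p hp
          apply mul_le_mul_of_nonneg_left _ (hw0 i p hp)
          exact div_le_div_of_nonneg_right (hs1 p) hδ.le
      _ = (∑ p ∈ QD i (i + 1), Real.log (p : ℝ)) / 2 ^ i * (1 / δ) := by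
          rw [← sum_mul, sum_div]
      _ ≤ 3 * (1 / δ) := by
          apply mul_le_mul_of_nonneg_right _ (by positivity)
          rw [div_le_iff₀ h5]
          exact Pool.Agent.TH575.CW.theta_QD i
      _ = 3 / δ := by ring
  have hbad := bad_sum' (um 𝓤 hU) (lt' f a A α) (bb α) (some ()) c (dd := dd) (bb_succ f a A h0 h1)
    (EQα (um 𝓤 hU) hα h0) η hη0 i₀ i₁ (by omega)
  have hfin : ∑ i ∈ Ico i₀ i₁, (1 : ℝ) / i *
      ∑ p ∈ QD i (i + 1), Real.log p / 2 ^ i * (|sS 𝓤 ψ p| / δ) ≤ 2 * ε / δ * S + 3 / δ * B := by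
    rw [← sum_filter_add_sum_filter_not (Ico i₀ i₁)
      (fun i => ¬ Df (um 𝓤 hU) (lt' f a A α) (bb α) (some ()) c i ≤ η * 2 ^ i / i), add_comm]
    apply add_le_add
    · rw [hSd, mul_comm (2 * ε / δ), sum_mul]
      refine le_trans (sum_le_sum (g := fun i : ℕ => (1 : ℝ) / i * (2 * ε / δ)) fun i hi => ?_)
        (sum_le_sum_of_subset_of_nonneg (filter_subset _ _) fun i _ _ => by positivity)
      rw [mem_filter, not_not] at hi
      exact mul_le_mul_of_nonneg_left (hgood i hi.1 hi.2) (by positivity)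
    · refine le_trans (sum_le_sum fun i _ =>
        mul_le_mul_of_nonneg_left (hall i) (by positivity : (0 : ℝ) ≤ 1 / (i : ℝ))) ?_
      rw [← sum_mul, mul_comm]
      exact mul_le_mul_of_nonneg_left hbad (by positivity)
  have h1 := hlimineq.trans hfin
  have h2 : 2 * ε / δ = ε' / 4 := by
    rw [hε]; field_simp; ring
  rw [h2] at h1
  have hS0 : 0 < S := by
    refine lt_of_le_of_lt ?_ hS
    positivity
  have h3 : 3 / δ * B < ε' / 4 * S := by
    have h4 : 8 * B * 3 < S * (ε' * δ) := by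
      have h5 : 8 * B / (ε' * δ) * 3 = (8 * B * 3) / (ε' * δ) := by ring
      rw [h5, div_lt_iff₀ (by positivity)] at hS
      exact hS
    rw [div_mul_eq_mul_div, div_lt_iff₀ hδ]
    nlinarith
  nlinarith

end fin

end Pool.Agent.P8H6.Irr
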