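import Pool.Agent.P8H6.Irr.Intv

/-!
# Products of linear factors
-/

set_option autoImplicit false

namespace Pool.Agent.P8H6.Irr

open Finset Filter Topology
open Pool.Agent.Y958.U (LZ)

/-- the Liouville function on the natural numbers -/
def lamN (n : ℕ) : ℤ := (-1) ^ ArithmeticFunction.cardFactors n

/-- the Liouville function on the integers, `0` at `0` -/
def lamZ (m : ℤ) : ℤ := if m = 0 then 0 else (-1) ^ ArithmeticFunction.cardFactors m.natAbs

lemma lamN_flip : Flip lamN := by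
  constructor
  · intro n
    unfold lamN
    rw [abs_pow, abs_neg, abs_one, one_pow]
  · refine ⟨0, fun _ => -1, fun p hp _ => ⟨by norm_num, fun n hn => ?_⟩⟩
    have hn0 : n ≠ 0 := by
      rintro rfl
      exact hn (dvd_zero p)
    unfold lamN
    rw [ArithmeticFunction.cardFactors_mul hp.ne_zero hn0, ArithmeticFunction.cardFactors_apply_prime hp,
      pow_add, pow_one]

lemma lamZ_abs (m : ℤ) : |lamZ m| ≤ 1 := by
  unfold lamZ
  split_ifs
  · simp
  · rw [abs_pow, abs_neg, abs_one, one_pow]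

lemma lamZ_mul (m n : ℤ) : lamZ (m * n) = lamZ m * lamZ n := by
  unfold lamZ
  by_cases hm : m = 0
  · simp [hm]
  by_cases hn : n = 0
  · simp [hn]
  rw [if_neg (mul_ne_zero hm hn), if_neg hm, if_neg hn, Int.natAbs_mul,
    ArithmeticFunction.cardFactors_mul (Int.natAbs_ne_zero.2 hm) (Int.natAbs_ne_zero.2 hn), pow_add]

lemma lamZ_one : lamZ 1 = 1 := by
  unfold lamZ
  simp

lemma lamZ_prod {ι : Type} (s : Finset ι) (x : ι → ℤ) : lamZ (∏ i ∈ s, x i) = ∏ i ∈ s, lamZ (x i) := by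
  classical
  induction s using Finset.induction_on with
  | empty => simpa using lamZ_one
  | insert i s hi ih => rw [prod_insert hi, prod_insert hi, lamZ_mul, ih]

lemma lamZ_eq {m : ℤ} (hm : m ≠ 0) : lamZ m = lamN m.natAbs := by
  unfold lamZ lamN
  rw [if_neg hm]

/-- the size of a linear form -/
lemma lin_abs {a b w₀ : ℤ} (ha : a ≠ 0) (hw : |b| + 1 ≤ w₀) (q n : ℕ) :
    a * (w₀ + q * n) + b ≠ 0 ∧ (a * (w₀ + q * n) + b).natAbs = a.natAbs * q * n + (a * w₀ + b).natAbs := by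
  have hb := neg_abs_le b
  have hb' := le_abs_self b
  have hqn : (0 : ℤ) ≤ q * n := by positivity
  have hw0 : 0 < w₀ := by
    have := abs_nonneg b
    omega
  rcases lt_or_gt_of_ne ha with h | h
  · have h1 : a * w₀ + b < 0 := by nlinarith
    have h2 : a * (q * n : ℤ) ≤ 0 := mul_nonpos_of_nonpos_of_nonneg h.le hqn
    have h3 : a * (w₀ + q * n) + b < 0 := by
      have : a * (w₀ + q * n) + b = (a * w₀ + b) + a * (q * n) := by ring
      omega
    refine ⟨h3.ne, ?_⟩
    zify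
    rw [abs_of_neg h3, abs_of_neg h1, abs_of_neg h]
    ring
  · have h1 : 0 < a * w₀ + b := by nlinarith
    have h2 : 0 ≤ a * (q * n : ℤ) := mul_nonneg h.le hqn
    have h3 : 0 < a * (w₀ + q * n) + b := by
      have : a * (w₀ + q * n) + b = (a * w₀ + b) + a * (q * n) := by ring
      omega
    refine ⟨h3.ne', ?_⟩
    zify
    rw [abs_of_pos h3, abs_of_pos h1, abs_of_pos h]
    ring

/-- shifted intervals -/
lemma shift_iv (β γ u v : ℝ) (hu : 0 ≤ u) (huv : u ≤ v) (hv : v ≤ 1) :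
    ∃ u₁ v₁ u₂ v₂ : ℝ, (0 ≤ u₁ ∧ u₁ ≤ v₁ ∧ v₁ ≤ 1) ∧ (0 ≤ u₂ ∧ u₂ ≤ v₂ ∧ v₂ ≤ 1) ∧ ∀ n : ℕ,
      (open Classical in (if u ≤ Int.fract (β * n + γ) ∧ Int.fract (β * n + γ) < v then (1 : ℝ) else 0)) - (v - u) =
        (iv' (Int.fract β) u₁ v₁ n - (v₁ - u₁)) + (iv' (Int.fract β) u₂ v₂ n - (v₂ - u₂)) := by
  classical
  set c := Int.fract γ with hc
  have hc0 : 0 ≤ c := Int.fract_nonneg _
  have hc1 : c < 1 := Int.fract_lt_one _
  refine ⟨max 0 (u - c), max 0 (v - c), min 1 (u - c + 1), min 1 (v - c + 1),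
    ⟨le_max_left _ _, max_le_max le_rfl (by linarith), max_le (by norm_num) (by linarith)⟩,
    ⟨le_min (by norm_num) (by linarith), min_le_min le_rfl (by linarith), min_le_left _ _⟩, fun n => ?_⟩
  have hsum : ∀ t : ℝ, max 0 t + min 1 (t + 1) = t + 1 := by
    intro t
    rcases le_total 0 t with h | h
    · rw [max_eq_right h, min_eq_left (by linarith)]
    · rw [max_eq_left h, min_eq_right (by linarith)]
      ring
  have h1 := hsum (u - c)
  have h2 := hsum (v - c)
  set x := Int.fract (Int.fract β * n) with hx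
  have hx0 : 0 ≤ x := Int.fract_nonneg _
  have hx1 : x < 1 := Int.fract_lt_one _
  have hfr : Int.fract (β * n + γ) = if x + c < 1 then x + c else x + c - 1 := by
    have e1 : β * n + γ = (x + c) + ((⌊β⌋ * n + ⌊Int.fract β * n⌋ + ⌊γ⌋ : ℤ) : ℝ) := by
      have h3 := Int.fract_add_floor β
      have h4 := Int.fract_add_floor (Int.fract β * (n : ℝ))
      have h5 := Int.fract_add_floor γ
      push_cast
      calc β * n + γ = (Int.fract β + ⌊β⌋) * n + (Int.fract γ + ⌊γ⌋) := by rw [h3, h5]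
        _ = Int.fract β * n + ⌊β⌋ * n + (Int.fract γ + ⌊γ⌋) := by ring
        _ = (Int.fract (Int.fract β * n) + ⌊Int.fract β * n⌋) + ⌊β⌋ * n + (Int.fract γ + ⌊γ⌋) := by rw [h4]
        _ = _ := by rw [hx, hc]; ring
    rw [e1, Int.fract_add_intCast]
    split_ifs with h
    · exact Int.fract_eq_self.2 ⟨by linarith, h⟩
    · have e2 : Int.fract (x + c) = Int.fract (x + c - 1) := by
        have := Int.fract_sub_one (x + c)
        exact this.symm
      rw [e2]
      exact Int.fract_eq_self.2 ⟨by linarith, by linarith⟩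
  unfold iv'
  rw [hfr, ← hx]
  have key : (if u ≤ (if x + c < 1 then x + c else x + c - 1) ∧ (if x + c < 1 then x + c else x + c - 1) < v
      then (1 : ℝ) else 0) = (if max 0 (u - c) ≤ x ∧ x < max 0 (v - c) then (1 : ℝ) else 0) +
      (if min 1 (u - c + 1) ≤ x ∧ x < min 1 (v - c + 1) then (1 : ℝ) else 0) := by
    by_cases h : x + c < 1
    · have h3 : ¬ (min 1 (u - c + 1) ≤ x ∧ x < min 1 (v - c + 1)) := by
        rintro ⟨h4, -⟩
        rcases min_le_iff.1 h4 with h5 | h5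
        · linarith
        · linarith
      rw [if_neg h3, add_zero]
      simp only [if_pos h]
      have h4 : (u ≤ x + c ∧ x + c < v) ↔ (max 0 (u - c) ≤ x ∧ x < max 0 (v - c)) := by
        constructor
        · rintro ⟨h5, h6⟩
          exact ⟨max_le hx0 (by linarith), lt_of_lt_of_le (by linarith) (le_max_right _ _)⟩
        · rintro ⟨h5, h6⟩
          refine ⟨by linarith [(le_max_right 0 (u - c)).trans h5], ?_⟩
          rcases lt_max_iff.1 h6 with h7 | h7
          · linarith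
          · linarith
      simp only [h4]
    · have h3 : ¬ (max 0 (u - c) ≤ x ∧ x < max 0 (v - c)) := by
        rintro ⟨-, h4⟩
        rcases lt_max_iff.1 h4 with h5 | h5
        · linarith
        · linarith
      rw [if_neg h3, zero_add]
      simp only [if_neg h]
      have h4 : (u ≤ x + c - 1 ∧ x + c - 1 < v) ↔ (min 1 (u - c + 1) ≤ x ∧ x < min 1 (v - c + 1)) := by
        constructor
        · rintro ⟨h5, h6⟩
          exact ⟨min_le_of_right_le (by linarith), lt_min hx1 (by linarith)⟩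
        · rintro ⟨h5, h6⟩
          refine ⟨?_, by linarith [h6.trans_le (min_le_right 1 (v - c + 1))]⟩
          rcases min_le_iff.1 h5 with h7 | h7
          · linarith
          · linarith
      simp only [h4]
  rw [key]
  linarith

/-- the summand -/
noncomputable def sm {d : ℕ} (a b : Fin d → ℤ) (α u v : ℝ) (w : ℤ) : ℝ :=
  (lamZ (∏ i, (a i * w + b i)) : ℝ) *
    ((open Classical in (if u ≤ Int.fract (α * w) ∧ Int.fract (α * w) < v then (1 : ℝ) else 0)) - (v - u))

lemma sm_le {d : ℕ} (a b : Fin d → ℤ) (α : ℝ) {u v : ℝ} (hu : 0 ≤ u) (huv : u ≤ v) (hv : v ≤ 1) (w : ℤ) :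
    |sm a b α u v w| ≤ 1 := by
  classical
  unfold sm
  apply mul_le'
  · exact_mod_cast lamZ_abs _
  · rw [abs_le]
    split_ifs <;> constructor <;> linarith

/-- the property of the exceptional set -/
def Ex (α : ℝ) (E : Set ℕ) : Prop := ∀ q : ℕ, 1 ≤ q → ∀ (k : ℕ) (A B : Fin k → ℕ), (∀ i, 1 ≤ A i) →
  NoPhS (fun n => ∏ i, (lamN (A i * n + B i) : ℝ)) (Int.fract (q * α)) E

/-- **the positive side** -/
theorem pos_side {α : ℝ} (hα : Irrational α) (E : Set ℕ) (hE : Ex α E) (d : ℕ) (a b : Fin d → ℤ)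
    (ha : ∀ i, a i ≠ 0) (q : ℕ) (hq : 1 ≤ q) (r : ℤ) (ε : ℝ) (hε : 0 < ε) :
    ∃ N₀ : ℕ, ∀ N : ℕ, N₀ ≤ N → N ∉ E → ∀ x ≤ N, ∀ u v : ℝ, 0 ≤ u → u ≤ v → v ≤ 1 →
      |∑ w ∈ (Icc 1 x).filter (fun w : ℕ => (w : ℤ) ≡ r [ZMOD q]), sm a b α u v w| ≤ ε * N := by
  classical
  -- the first element
  set V : ℕ := 1 + ∑ i, (b i).natAbs with hV
  have hbV : ∀ i, |b i| + 1 ≤ (V : ℤ) := by
    intro i
    have := single_le_sum (f := fun i => (b i).natAbs) (fun _ _ => Nat.zero_le _) (mem_univ i)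
    have h2 : |b i| = ((b i).natAbs : ℤ) := Int.abs_eq_natAbs _
    rw [h2]
    omega
  have hqZ : (0 : ℤ) < q := by exact_mod_cast hq
  set w₀ : ℕ := V + ((r - V) % q).toNat with hw₀
  have hmod0 : 0 ≤ (r - V) % q := Int.emod_nonneg _ hqZ.ne'
  have hmod1 : (r - V) % q < q := Int.emod_lt_of_pos _ hqZ
  have hw₀Z : (w₀ : ℤ) = V + (r - V) % q := by
    rw [hw₀]
    push_cast
    rw [Int.toNat_of_nonneg hmod0]
  have hw₀r : (w₀ : ℤ) ≡ r [ZMOD q] := by
    rw [hw₀Z]
    have h1 : (r - V) % q ≡ r - V [ZMOD q] := Int.mod_modEq _ _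
    have h2 := h1.add_left (V : ℤ)
    rwa [add_sub_cancel] at h2
  have hw₀V : V ≤ w₀ := by omega
  have hw₀q : w₀ < V + q := by omega
  have hbw : ∀ i, |b i| + 1 ≤ (w₀ : ℤ) := fun i => (hbV i).trans (by exact_mod_cast hw₀V)
  -- the functions
  set A : Fin d → ℕ := fun i => (a i).natAbs * q with hA
  set B : Fin d → ℕ := fun i => (a i * w₀ + b i).natAbs with hB
  have hA1 : ∀ i, 1 ≤ A i := fun i => Nat.mul_pos (Int.natAbs_pos.2 (ha i)) hq
  have hirr : Irrational (Int.fract (q * α)) := by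
    have h1 : Irrational ((q : ℝ) * α) := by
      have h2 : Irrational (((q : ℤ) : ℝ) * α) := hα.intCast_mul (by exact_mod_cast (by omega : q ≠ 0))
      exact_mod_cast h2
    unfold Int.fract
    exact h1.sub_intCast _
  have hfr0 : 0 < Int.fract (q * α) :=
    lt_of_le_of_ne (Int.fract_nonneg _) (fun h => hirr.ne_zero h.symm)
  have hFle : ∀ n : ℕ, |∏ i, (lamN (A i * n + B i) : ℝ)| ≤ 1 := by
    intro n
    apply prod_le
    intro i
    exact_mod_cast lamN_flip.bd _
  have h1 := intervalS (fun n => ∏ i, (lamN (A i * n + B i) : ℝ)) hFle E hirr hfr0 (hE q hq d A B hA1) (by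
    have h2 := hE q hq 0 (fun _ => 1) (fun _ => 0) (fun _ => le_rfl)
    simpa using h2) (ε / 4) (by positivity)
  obtain ⟨N₁, h1⟩ := h1
  obtain ⟨N₂, hN₂⟩ := exists_nat_ge (2 * (V + q) / ε)
  refine ⟨N₁ + N₂, fun N hN hNE x hx u v hu huv hv => ?_⟩
  obtain ⟨u₁, v₁, u₂, v₂, ⟨c1, c2, c3⟩, ⟨c4, c5, c6⟩, h2⟩ := shift_iv (q * α) (w₀ * α) u v hu huv hv
  -- the terms
  have hterm : ∀ n : ℕ, sm a b α u v ((w₀ + q * n : ℕ) : ℤ) = (∏ i, (lamN (A i * n + B i) : ℝ)) *
      ((iv' (Int.fract (q * α)) u₁ v₁ n - (v₁ - u₁)) + (iv' (Int.fract (q * α)) u₂ v₂ n - (v₂ - u₂))) := by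
    intro n
    unfold sm
    rw [← h2 n]
    congr 1
    · rw [lamZ_prod]
      push_cast
      refine prod_congr rfl fun i _ => ?_
      obtain ⟨h3, h4⟩ := lin_abs (ha i) (hbw i) q n
      rw [lamZ_eq h3, h4]
    · have e : α * (((w₀ + q * n : ℕ) : ℤ) : ℝ) = q * α * n + w₀ * α := by
        push_cast
        ring
      rw [e]
  -- the number of terms
  set y : ℕ := if x < w₀ then 0 else (x - w₀) / q + 1 with hy
  have hyx : y ≤ N := by
    rw [hy]
    split_ifs with h
    · omega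
    · have h3 : (x - w₀) / q ≤ x - w₀ := Nat.div_le_self _ _
      omega
  have hsplit : ∑ w ∈ (Icc 1 x).filter (fun w : ℕ => (w : ℤ) ≡ r [ZMOD q]), sm a b α u v w =
      ∑ w ∈ ((Icc 1 x).filter (fun w : ℕ => (w : ℤ) ≡ r [ZMOD q])).filter (fun w => w < w₀), sm a b α u v w +
      ∑ n ∈ range y, sm a b α u v ((w₀ + q * n : ℕ) : ℤ) := by
    rw [← sum_filter_add_sum_filter_not _ (fun w => w < w₀)]
    congr 1
    symm
    apply sum_bij (fun (n : ℕ) _ => w₀ + q * n)
    · intro n hn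
      rw [mem_range] at hn
      rw [mem_filter, mem_filter, mem_Icc]
      have h3 : ¬ x < w₀ := by
        intro h
        rw [hy, if_pos h] at hn
        omega
      rw [hy, if_neg h3] at hn
      have h4 : q * n ≤ x - w₀ := by
        have h5 : n ≤ (x - w₀) / q := by omega
        rw [mul_comm]
        exact (Nat.le_div_iff_mul_le (by omega)).1 h5
      refine ⟨⟨⟨by omega, by omega⟩, ?_⟩, by omega⟩
      push_cast
      have h5 : (w₀ : ℤ) + q * n ≡ w₀ + 0 [ZMOD q] := Int.ModEq.add_left _ (Int.modEq_zero_iff_dvd.2 ⟨n, rfl⟩)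
      rw [add_zero] at h5
      exact h5.trans hw₀r
    · intro n _ n' _ he
      have he' : w₀ + q * n = w₀ + q * n' := he
      exact Nat.eq_of_mul_eq_mul_left (by omega : 0 < q) (by omega)
    · intro w hw
      rw [mem_filter, mem_filter, mem_Icc] at hw
      obtain ⟨⟨⟨h3, h4⟩, h5⟩, h6⟩ := hw
      have h7 : (q : ℤ) ∣ (w : ℤ) - w₀ := (Int.modEq_iff_dvd.1 (hw₀r.trans h5.symm))
      have h8 : q ∣ w - w₀ := by
        have h9 : ((w - w₀ : ℕ) : ℤ) = (w : ℤ) - w₀ := by
          rw [Nat.cast_sub (by omega)]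
        rw [← h9] at h7
        exact_mod_cast h7
      obtain ⟨n, hn⟩ := h8
      refine ⟨n, ?_, by
        show w₀ + q * n = w
        omega⟩
      rw [mem_range, hy, if_neg (by omega)]
      have h9 : n ≤ (x - w₀) / q := by
        rw [Nat.le_div_iff_mul_le (by omega), mul_comm]
        omega
      omega
    · intro n _
      rfl
  have hsmall : |∑ w ∈ ((Icc 1 x).filter (fun w : ℕ => (w : ℤ) ≡ r [ZMOD q])).filter (fun w => w < w₀),
      sm a b α u v w| ≤ V + q := by
    refine (abs_sum_le_sum_abs _ _).trans ((sum_le_sum fun w _ => sm_le a b α hu huv hv _).trans ?_)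
    rw [sum_const, nsmul_eq_mul, mul_one]
    have h3 : (((Icc 1 x).filter (fun w : ℕ => (w : ℤ) ≡ r [ZMOD q])).filter (fun w => w < w₀)).card ≤ w₀ := by
      refine (card_le_card (t := range w₀) fun w hw => ?_).trans (by rw [card_range])
      rw [mem_filter] at hw
      exact mem_range.2 hw.2
    exact_mod_cast h3.trans hw₀q.le
  have hbig : |∑ n ∈ range y, sm a b α u v ((w₀ + q * n : ℕ) : ℤ)| ≤ ε / 2 * N := by
    rw [sum_congr rfl fun n _ => hterm n]
    simp only [mul_add]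
    rw [sum_add_distrib]
    have h3 := h1 N (by omega) hNE y hyx u₁ v₁ c1 c2 c3
    have h4 := h1 N (by omega) hNE y hyx u₂ v₂ c4 c5 c6
    have h5 := abs_add_le (∑ n ∈ range y, (∏ i, (lamN (A i * n + B i) : ℝ)) * (iv' (Int.fract (q * α)) u₁ v₁ n - (v₁ - u₁)))
      (∑ n ∈ range y, (∏ i, (lamN (A i * n + B i) : ℝ)) * (iv' (Int.fract (q * α)) u₂ v₂ n - (v₂ - u₂)))
    linarith
  rw [hsplit]
  have h3 := abs_add_le (∑ w ∈ ((Icc 1 x).filter (fun w : ℕ => (w : ℤ) ≡ r [ZMOD q])).filter (fun w => w < w₀),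
    sm a b α u v w) (∑ n ∈ range y, sm a b α u v ((w₀ + q * n : ℕ) : ℤ))
  have h4 : (V : ℝ) + q ≤ ε / 2 * N := by
    have h5 : 2 * ((V : ℝ) + q) / ε ≤ N := hN₂.trans (by exact_mod_cast (by omega : N₂ ≤ N))
    rw [div_le_iff₀ hε] at h5
    linarith
  linarith

end Pool.Agent.P8H6.Irr
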