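import Pool.Agent.P8H6.Irr.Core

/-!
# One scale, equidistribution, few bad scales
-/

set_option autoImplicit false

namespace Pool.Agent.P8H6.Irr

open Finset Filter Topology
open Pool.Agent.TH112.BL (Bd QD win)
open Pool.Agent.Y958.TC

section one

variable {k : ℕ} (f : Fin k → ℕ → ℤ) (a b : Fin k → ℕ) (α θ : ℝ)

/-- the dilated product -/
noncomputable def FF (p n : ℕ) : ℝ := ∏ i, (f i (a i * n + p * b i) : ℝ)

/-- with the phase read off the Beatty cocycle -/
noncomputable def GG (p n : ℕ) : ℝ := FF f a b p n * ph θ ((⌊α * (n : ℝ)⌋₊ : ℝ) / p)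

/-- with the exact phase -/
noncomputable def HH (p n : ℕ) : ℝ := FF f a b p n * ph θ (α * n / p)

lemma prod_le (g : Fin k → ℝ) (hg : ∀ i, |g i| ≤ 1) : |∏ i, g i| ≤ 1 := by
  rw [abs_prod]
  exact prod_le_one (fun _ _ => abs_nonneg _) (fun i _ => hg i)

variable {f} in
lemma FF_le (hb : ∀ i n, |f i n| ≤ 1) (p n : ℕ) : |FF f a b p n| ≤ 1 := by
  unfold FF
  apply prod_le
  intro i
  exact_mod_cast hb i _

lemma mul_le' {x y : ℝ} (hx : |x| ≤ 1) (hy : |y| ≤ 1) : |x * y| ≤ 1 := by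
  rw [abs_mul]
  exact mul_le_one₀ hx (abs_nonneg _) hy

/-- one scale -/
lemma one_scale (μ : NM) (hb : ∀ i n, |f i n| ≤ 1) (ha : ∀ i, 1 ≤ a i) {A : ℕ} (hA : ∀ i, a i ≤ A) (h0 : 0 < α)
    (h1 : α < 1) (c : ℕ) (hc2 : 2 ≤ c) (hc : ∀ i, 2 * (1 + b i) ≤ c) {ε : ℝ} (hε : 0 < ε) (i : ℕ) (hi1 : 1 ≤ i)
    (h2 : (i : ℝ) / 2 ^ i < (ε / 30) * ε / 3)
    (hD : Df μ (lt' f a A α) (bb α) (some ()) c i ≤ ((ε / 30) * ε / 3) * 2 ^ i / i) :
    ∑ p ∈ QD i (i + 1), Real.log p / 2 ^ i *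
      |μ.m (fun n => GG f a b α θ p (n + (p - n % p) % p))| ≤ ε := by
  classical
  set sg : ℕ → ℝ := fun p => if 0 ≤ μ.m (fun n => GG f a b α θ p (n + (p - n % p) % p)) then 1 else -1
    with hsg
  have hsg1 : ∀ p, |sg p| ≤ 1 := by
    intro p; rw [hsg]; simp only; split_ifs <;> simp
  have hsg2 : ∀ p, sg p * μ.m (fun n => GG f a b α θ p (n + (p - n % p) % p)) =
      |μ.m (fun n => GG f a b α θ p (n + (p - n % p) % p))| := by
    intro p
    rw [hsg]
    simp only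
    split_ifs with h
    · rw [one_mul, abs_of_nonneg h]
    · rw [abs_of_neg (not_le.1 h)]; ring
  set t : ℕ → ℕ → ℕ := fun p n => (p - n % p) % p with ht
  set D : ℕ → ℕ → ℕ := fun p n => ⌊α * ((n + t p n : ℕ) : ℝ)⌋₊ - ⌊α * (n : ℝ)⌋₊ with hDd
  set Ψ : ℕ → ℕ → ℕ → ℝ := fun p n r =>
    sg p * (FF f a b p (n + t p n) * ph θ (((r + D p n : ℕ) : ℝ) / p)) with hΨd
  have hΨ : ∀ p n r, |Ψ p n r| ≤ 1 := by
    intro p n r
    rw [hΨd]
    simp only
    exact mul_le' (hsg1 p) (mul_le' (FF_le a b hb _ _) (ph_le _ _))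
  have hp2 : ∀ p ∈ QD i (i + 1), p ≤ 2 ^ (i + 1) := by
    intro p hp
    unfold QD at hp
    rw [mem_filter, mem_Ioc] at hp
    exact hp.1.2
  have key := scale μ (lt' f a A α) (bb α) (some ()) c hε rfl i hi1 h2 hD Ψ hΨ (by
    intro p hp n n' r hw hres
    have hpp := (QDp hp).pos
    have h3 : n % p = n' % p := hres p hp none (by simp)
    have h4 : t p n = t p n' := by
      rw [ht]
      simp only
      rw [h3]
    have h5 : t p n' < p := Nat.mod_lt _ hpp
    have hple := hp2 p hp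
    have hW : ∀ x : ℕ, 2 * (1 + x) ≤ c → t p n' + p * x < c * 2 ^ i := by
      intro x hx
      calc t p n' + p * x < p + p * x := by omega
        _ = p * (1 + x) := by ring
        _ ≤ 2 ^ (i + 1) * (1 + x) := Nat.mul_le_mul_right _ hple
        _ = (2 * (1 + x)) * 2 ^ i := by rw [pow_succ]; ring
        _ ≤ c * 2 ^ i := Nat.mul_le_mul_right _ hx
    have e1 : FF f a b p (n + t p n) = FF f a b p (n' + t p n') := by
      unfold FF
      refine prod_congr rfl fun j _ => ?_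
      rw [h4, read_f f hb a ha hA α hw j (t p n') (p * b j) (hW _ (hc j))]
    have e2 : D p n = D p n' := by
      rw [hDd]
      simp only
      rw [h4]
      have h6 := hW 0 (by omega)
      obtain ⟨D', h7, h8⟩ := read_d f a A h0 h1 hw (t p n') (by
        rw [mul_zero, add_zero] at h6
        exact h6.le)
      rw [h7, h8]
      omega
    rw [hΨd]
    simp only
    rw [e1, e2])
  have hmono : ∀ p n : ℕ, ⌊α * ((n + t p n : ℕ) : ℝ)⌋₊ = ⌊α * (n : ℝ)⌋₊ + D p n := by
    intro p n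
    rw [hDd]
    simp only
    have : ⌊α * (n : ℝ)⌋₊ ≤ ⌊α * ((n + t p n : ℕ) : ℝ)⌋₊ := by
      apply Nat.floor_le_floor
      apply mul_le_mul_of_nonneg_left _ h0.le
      exact_mod_cast Nat.le_add_right _ _
    omega
  -- the average over the residues vanishes, the value is `GG`
  have hval : ∀ p ∈ QD i (i + 1), ∀ n, Ψ p n (bb α (some ()) n % p) - (∑ r ∈ range p, Ψ p n r) / p =
      sg p * GG f a b α θ p (n + t p n) := by
    intro p hp n
    have hpp := QDp hp
    have hp0 : (p : ℝ) ≠ 0 := by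
      have := hpp.pos
      positivity
    have e1 : ∑ r ∈ range p, Ψ p n r = 0 := by
      rw [hΨd]
      simp only
      rw [← mul_sum, ← mul_sum, ph_sum θ p (D p n) hpp.two_le, mul_zero, mul_zero]
    rw [e1, zero_div, sub_zero]
    rw [hΨd]
    simp only
    unfold GG
    congr 2
    have e2 : bb α (some ()) n = ⌊α * (n : ℝ)⌋₊ := rfl
    rw [e2, hmono p n]
    have e3 := Nat.div_add_mod ⌊α * (n : ℝ)⌋₊ p
    have e4 : ((⌊α * (n : ℝ)⌋₊ + D p n : ℕ) : ℝ) / p =
        ((⌊α * (n : ℝ)⌋₊ % p + D p n : ℕ) : ℝ) / p + ((⌊α * (n : ℝ)⌋₊ / p : ℕ) : ℤ) := by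
      have e5 : ((⌊α * (n : ℝ)⌋₊ + D p n : ℕ) : ℝ) =
          ((⌊α * (n : ℝ)⌋₊ % p + D p n : ℕ) : ℝ) + (p : ℝ) * ((⌊α * (n : ℝ)⌋₊ / p : ℕ) : ℝ) := by
        rw [← Nat.cast_mul, ← Nat.cast_add]
        congr 1
        omega
      rw [e5, add_div, mul_div_cancel_left₀ _ hp0, Int.cast_natCast]
    rw [e4, ph_int]
  have hBG : ∀ p ∈ QD i (i + 1), Bd (fun n => sg p * GG f a b α θ p (n + t p n)) := by
    intro p _
    refine ⟨1, fun n => ?_⟩
    exact mul_le' (hsg1 p) (mul_le' (FF_le a b hb _ _) (ph_le _ _))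
  have hsumB := m_sum μ (QD i (i + 1)) (fun p => Real.log p / 2 ^ i)
    (fun p n => sg p * GG f a b α θ p (n + t p n)) hBG
  have h5 := μ.abs_le hsumB.1
  have e6 : (fun n => |∑ p ∈ QD i (i + 1), Real.log p / 2 ^ i *
      (Ψ p n (bb α (some ()) n % p) - (∑ r ∈ range p, Ψ p n r) / p)|) =
      fun n => |∑ p ∈ QD i (i + 1), Real.log p / 2 ^ i * (sg p * GG f a b α θ p (n + t p n))| := by
    funext n
    congr 1
    refine sum_congr rfl fun p hp => ?_
    rw [hval p hp n]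
  rw [e6] at key
  refine le_trans ?_ (h5.trans key)
  refine le_trans ?_ (le_abs_self _)
  rw [hsumB.2]
  apply le_of_eq
  refine sum_congr rfl fun p _ => ?_
  congr 1
  rw [← hsg2 p]
  exact (μ.smul (sg p) (fun n => GG f a b α θ p (n + t p n))
    ⟨1, fun n => mul_le' (FF_le a b hb _ _) (ph_le _ _)⟩).symm

end one

/-- equidistribution of the Beatty cocycle -/
lemma EQα (μ : NM) {α : ℝ} (hα : Irrational α) (h0 : 0 < α) : EQ μ (bb α) (some ()) := by
  classical
  intro W hW r v hr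
  have hind : (fun _ : Unit => α) () ∉
      Submodule.span ℚ (insert (1 : ℝ) ((fun _ : Unit => α) '' {j | j ≠ ()})) := by
    have h1 : ((fun _ : Unit => α) '' {j | j ≠ ()}) = ∅ := by
      rw [Set.image_eq_empty]
      ext j
      simp
    rw [h1]
    intro h
    have h2 : α ∈ Submodule.span ℚ ({1} : Set ℝ) := by simpa using h
    rw [Submodule.mem_span_singleton] at h2
    obtain ⟨q, hq⟩ := h2
    apply hα
    refine ⟨q, ?_⟩
    rw [← hq, Rat.smul_def, mul_one]
  have h := equi μ (fun _ : Unit => α) (fun _ => h0) (fun _ => hα) () hind W hW (fun _ => v (some ()))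
    (v none) r hr
  have e1 : ind (fun n => (∀ j, j ≠ some () → bb α j n % W = v j) ∧ bb α (some ()) n % W = r) =
      fun n : ℕ => if (n % W = v none ∧ ∀ j : Unit, j ≠ () → ⌊α * (n : ℝ)⌋₊ % W = v (some ())) ∧
        ⌊α * (n : ℝ)⌋₊ % W = r then (1 : ℝ) else 0 := by
    funext n
    unfold ind
    congr 1
    apply propext
    constructor
    · rintro ⟨h3, h4⟩
      exact ⟨⟨h3 none (by simp), fun j hj => absurd (Subsingleton.elim j ()) hj⟩, h4⟩
    · rintro ⟨⟨h3, -⟩, h4⟩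
      refine ⟨fun j hj => ?_, h4⟩
      cases j with
      | none => exact h3
      | some j => exact absurd (congrArg some (Subsingleton.elim j ())) hj
  have e2 : ind (fun n => ∀ j, j ≠ some () → bb α j n % W = v j) =
      fun n : ℕ => if n % W = v none ∧ ∀ j : Unit, j ≠ () → ⌊α * (n : ℝ)⌋₊ % W = v (some ())
        then (1 : ℝ) else 0 := by
    funext n
    unfold ind
    congr 1
    apply propext
    constructor
    · intro h3
      exact ⟨h3 none (by simp), fun j hj => absurd (Subsingleton.elim j ()) hj⟩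
    · rintro ⟨h3, -⟩ j hj
      cases j with
      | none => exact h3
      | some j => exact absurd (congrArg some (Subsingleton.elim j ())) hj
  rw [e1, e2]
  convert h

/-- few bad scales -/
lemma bad_sum' (μ : NM) {A κ : Type} [Fintype A] [Nonempty A] [Finite κ] (a : ℕ → A) (b : κ → ℕ → ℕ) (k₀ : κ)
    (c : ℕ) {dd : κ → A → ℕ} (hb : ∀ k n, b k (n + 1) = b k n + dd k (a n)) (hE : EQ μ b k₀)
    (η : ℝ) (hη : 0 < η) (i₀ i₁ : ℕ) (h0 : 1 ≤ i₀)
    [DecidablePred fun i => ¬ Df μ a b k₀ c i ≤ η * 2 ^ i / i] :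
    ∑ i ∈ (Ico i₀ i₁).filter (fun i => ¬ Df μ a b k₀ c i ≤ η * 2 ^ i / i), (1 : ℝ) / i ≤
      c * Real.log (Fintype.card A) / η := by
  rcases Nat.lt_or_ge i₁ 1 with h | h
  · have : Ico i₀ i₁ = ∅ := by
      rw [Ico_eq_empty_iff]; omega
    rw [this, filter_empty, sum_empty]
    have : 0 ≤ Real.log (Fintype.card A) := Real.log_natCast_nonneg _
    positivity
  have h2 := sum_Df μ a b k₀ c hb hE i₁ h
  have h3 := X_init μ a b c
  have h4 : 0 ≤ X μ a b c i₁ / 2 ^ i₁ := div_nonneg (X_nonneg μ a b c i₁) (by positivity)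
  have h5 : ∑ i ∈ Ico 1 i₁, Df μ a b k₀ c i / 2 ^ i ≤ c * Real.log (Fintype.card A) := by
    linarith
  rw [le_div_iff₀ hη, sum_mul]
  refine le_trans ?_ h5
  refine le_trans ?_ (sum_le_sum_of_subset_of_nonneg
    (s := (Ico i₀ i₁).filter (fun i => ¬ Df μ a b k₀ c i ≤ η * 2 ^ i / i)) ?_ ?_)
  · apply sum_le_sum
    intro i hi
    rw [mem_filter, mem_Ico] at hi
    have hi0 : (0 : ℝ) < i := by exact_mod_cast (by omega : 0 < i)
    have h6 := not_le.1 hi.2
    rw [le_div_iff₀ (by positivity)]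
    refine le_trans (le_of_eq ?_) h6.le
    field_simp
  · intro i hi
    rw [mem_filter, mem_Ico] at hi
    rw [mem_Ico]
    omega
  · intro i _ _
    exact div_nonneg (Df_nonneg μ a b k₀ c i) (by positivity)

end Pool.Agent.P8H6.Irr
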