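import Pool.Agent.P8H6.Irr.One
import Pool.Agent.Y842.PH.A2

/-!
# All irrational phases, all partial sums, one exceptional set
-/

set_option autoImplicit false

namespace Pool.Agent.P8H6.Irr

open Finset Filter Topology
open Pool.Agent.Y958.TC
open Pool.Agent.Y958.U (LZ S_AVC)
open Pool.Agent.Y842.EL (LZ_mono LZ_diag')
open Pool.Agent.Y842.PH (LZ_thick)

lemma s_avc : S_AVC := Pool.Agent.Y304.U.avc Pool.Agent.Y304.U.pw

section sup

variable {k : ℕ} (f : Fin k → ℕ → ℤ) (a b : Fin k → ℕ) (α θ : ℝ)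

lemma psi_fract (n : ℕ) : psi f a b α θ n = psi f a b (Int.fract α) θ n := by
  unfold psi
  congr 1
  have h1 : α * n = Int.fract α * n + ((⌊α⌋ * (n : ℤ) : ℤ) : ℝ) := by
    have h2 : α = Int.fract α + ⌊α⌋ := (Int.fract_add_floor α).symm
    push_cast
    calc α * n = (Int.fract α + ⌊α⌋) * n := by rw [← h2]
      _ = _ := by ring
  rw [h1, ph_int]

lemma irr_gen (hf : ∀ i, Flip (f i)) (ha : ∀ i, 1 ≤ a i) (hα : Irrational α) (δ : ℝ) (hδ : 0 < δ) :
    LZ {N | δ < |Av N (psi f a b α θ)|} := by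
  have h1 : Irrational (Int.fract α) := by
    unfold Int.fract
    exact hα.sub_intCast _
  have h2 : 0 < Int.fract α := by
    refine lt_of_le_of_ne (Int.fract_nonneg α) (fun h => ?_)
    exact h1.ne_zero h.symm
  have h3 := irr_one f a b (Int.fract α) θ s_avc hf ha h2 (Int.fract_lt_one α) h1 δ hδ
  have h4 : psi f a b α θ = psi f a b (Int.fract α) θ := funext fun n => psi_fract f a b α θ n
  rw [h4]
  exact h3

/-- all partial sums -/
lemma irr_sup (hf : ∀ i, Flip (f i)) (ha : ∀ i, 1 ≤ a i) (hα : Irrational α) (δ : ℝ) (hδ : 0 < δ) (hδ1 : δ ≤ 1) :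
    LZ {N : ℕ | ∃ y : ℕ, y ≤ N ∧ δ * N < |∑ n ∈ range y, psi f a b α θ n|} := by
  have h1 := LZ_thick _ (irr_gen f a b α θ hf ha hα (δ / 8) (by positivity)) (δ / 2) (by positivity) (by linarith)
  refine LZ_mono ?_ h1
  rintro N ⟨y, hy1, hy2⟩
  have hle : ∀ n, |psi f a b α θ n| ≤ 1 := psi_le a b α θ fun i n => (hf i).bd n
  have hN0 : (0 : ℝ) < N := by
    rcases Nat.eq_zero_or_pos N with h | h
    · subst h
      have : y = 0 := by omega
      subst this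
      simp at hy2
    · exact_mod_cast h
  have hsum : |∑ n ∈ range y, psi f a b α θ n| ≤ y := by
    refine (abs_sum_le_sum_abs _ _).trans ((sum_le_sum fun n _ => hle n).trans (le_of_eq ?_))
    simp
  refine ⟨y, by nlinarith, hy1, fun m hm1 hm2 => ?_⟩
  show δ / 8 < |Av m (psi f a b α θ)|
  have hyN : (y : ℝ) ≤ N := by exact_mod_cast hy1
  have hm0 : (0 : ℝ) < m := by
    have : (y : ℝ) ≤ m := by exact_mod_cast hm1
    nlinarith
  have hm3 : (m : ℝ) ≤ 2 * N := by nlinarith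
  have h3 : ∑ n ∈ range m, psi f a b α θ n = ∑ n ∈ range y, psi f a b α θ n + ∑ n ∈ Ico y m, psi f a b α θ n :=
    (sum_range_add_sum_Ico _ hm1).symm
  have h4 : |∑ n ∈ Ico y m, psi f a b α θ n| ≤ (m : ℝ) - y := by
    refine (abs_sum_le_sum_abs _ _).trans ((sum_le_sum fun n _ => hle n).trans (le_of_eq ?_))
    rw [sum_const, Nat.card_Ico, nsmul_eq_mul, mul_one, Nat.cast_sub hm1]
  have h5 : δ / 2 * N ≤ |∑ n ∈ range m, psi f a b α θ n| := by
    have h6 : ∑ n ∈ range y, psi f a b α θ n =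
        ∑ n ∈ range m, psi f a b α θ n - ∑ n ∈ Ico y m, psi f a b α θ n := by rw [h3]; ring
    have h7 := abs_sub (∑ n ∈ range m, psi f a b α θ n) (∑ n ∈ Ico y m, psi f a b α θ n)
    rw [← h6] at h7
    linarith
  unfold Av
  rw [abs_div, Nat.abs_cast, lt_div_iff₀ hm0]
  nlinarith

/-- the complex sums -/
lemma norm_le (hf : ∀ i, Flip (f i)) (X Y : ℕ) (hYX : Y ≤ X) (M : ℝ)
    (h : ∀ θ' : ℝ, θ' = 0 ∨ θ' = -(1 / 4) → ∀ y : ℕ, y ≤ X → |∑ n ∈ range y, psi f a b α θ' n| ≤ M) :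
    ‖∑ n ∈ Ioc Y X, (((∏ i, f i (a i * n + b i) : ℤ) : ℝ) : ℂ) *
      Complex.exp (2 * Real.pi * Complex.I * (α * n))‖ ≤ 4 * (M + 1) := by
  have hle : ∀ θ' n, |psi f a b α θ' n| ≤ 1 := fun θ' => psi_le a b α θ' fun i n => (hf i).bd n
  have hpart : ∀ θ' : ℝ, θ' = 0 ∨ θ' = -(1 / 4) → |∑ n ∈ Ioc Y X, psi f a b α θ' n| ≤ 2 * (M + 1) := by
    intro θ' hθ'
    have h1 : ∑ n ∈ Ioc Y X, psi f a b α θ' n =
        (∑ n ∈ range X, psi f a b α θ' n + psi f a b α θ' X) -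
          (∑ n ∈ range Y, psi f a b α θ' n + psi f a b α θ' Y) := by
      rw [← sum_range_succ, ← sum_range_succ, ← sum_range_add_sum_Ico _ (by omega : Y + 1 ≤ X + 1)]
      have h2 : Ioc Y X = Ico (Y + 1) (X + 1) := by
        ext n
        rw [mem_Ioc, mem_Ico]
        omega
      rw [h2]
      ring
    rw [h1]
    have h2 := h θ' hθ' X le_rfl
    have h3 := h θ' hθ' Y hYX
    have h4 := hle θ' X
    have h5 := hle θ' Y
    rw [abs_le] at h2 h3 h4 h5 ⊢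
    constructor <;> linarith [h2.1, h2.2, h3.1, h3.2, h4.1, h4.2, h5.1, h5.2]
  have hterm : ∀ n : ℕ, (((∏ i, f i (a i * n + b i) : ℤ) : ℝ) : ℂ) *
      Complex.exp (2 * Real.pi * Complex.I * (α * n)) =
      ((psi f a b α 0 n : ℝ) : ℂ) + ((psi f a b α (-(1 / 4)) n : ℝ) : ℂ) * Complex.I := by
    intro n
    unfold psi ph
    have h1 : Complex.exp (2 * Real.pi * Complex.I * (α * n)) =
        ((Real.cos (2 * Real.pi * (α * n)) : ℝ) : ℂ) + ((Real.sin (2 * Real.pi * (α * n)) : ℝ) : ℂ) * Complex.I := by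
      rw [Complex.ofReal_cos, Complex.ofReal_sin, ← Complex.exp_mul_I]
      congr 1
      push_cast
      ring
    have h2 : Real.cos (2 * Real.pi * (α * n + -(1 / 4))) = Real.sin (2 * Real.pi * (α * n)) := by
      rw [show 2 * Real.pi * (α * n + -(1 / 4)) = 2 * Real.pi * (α * n) - Real.pi / 2 by ring,
        Real.cos_sub_pi_div_two]
    rw [h1, h2, add_zero]
    push_cast
    ring
  rw [sum_congr rfl fun n _ => hterm n, sum_add_distrib, ← sum_mul, ← Complex.ofReal_sum, ← Complex.ofReal_sum]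
  refine (norm_add_le _ _).trans ?_
  rw [norm_mul, Complex.norm_I, mul_one, Complex.norm_real, Complex.norm_real, Real.norm_eq_abs, Real.norm_eq_abs]
  have h1 := hpart 0 (Or.inl rfl)
  have h2 := hpart (-(1 / 4)) (Or.inr rfl)
  linarith

end sup

/-- **one exceptional set** for sequences of functions and phases -/
theorem irr_all (f : ℕ → ℕ → ℤ) (hf : ∀ j, Flip (f j)) (α : ℕ → ℝ) (hα : ∀ j, Irrational (α j)) :
    ∃ E : Set ℕ, LZ E ∧ ∀ (t k : ℕ) (s a b : Fin k → ℕ), (∀ i, 1 ≤ a i) → ∀ ε : ℝ, 0 < ε →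
      ∃ N₀ : ℕ, ∀ N : ℕ, N₀ ≤ N → N ∉ E → ∀ Y X : ℕ, Y ≤ X → X ≤ N →
        ‖∑ n ∈ Ioc Y X, (((∏ i, f (s i) (a i * n + b i) : ℤ) : ℝ) : ℂ) *
          Complex.exp (2 * Real.pi * Complex.I * (α t * n))‖ ≤ ε * N := by
  obtain ⟨E, hE, h1⟩ := LZ_diag' (ι := (ℕ × ℕ × Bool) × (Σ k : ℕ, (Fin k → ℕ × ℕ × ℕ)))
    (fun z => {N : ℕ | ∃ y : ℕ, y ≤ N ∧ 1 / ((z.1.2.1 : ℝ) + 1) * N <
      |∑ n ∈ range y, psi (fun i => f (z.2.2 i).1) (fun i => (z.2.2 i).2.1 + 1) (fun i => (z.2.2 i).2.2) (α z.1.1)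
        (if z.1.2.2 = true then 0 else -(1 / 4)) n|})
    (fun z => irr_sup _ _ _ _ _ (fun i => hf _) (fun i => by omega) (hα _) _ (by positivity) (by
      rw [div_le_one (by positivity)]
      have : (0 : ℝ) ≤ z.1.2.1 := Nat.cast_nonneg _
      linarith))
  refine ⟨E, hE, fun t k s a b ha ε hε => ?_⟩
  obtain ⟨j, hj⟩ := exists_nat_gt (8 / ε)
  obtain ⟨N₁, hN₁⟩ := h1 ((t, j, true), ⟨k, fun i => (s i, a i - 1, b i)⟩)
  obtain ⟨N₂, hN₂⟩ := h1 ((t, j, false), ⟨k, fun i => (s i, a i - 1, b i)⟩)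
  obtain ⟨N₃, hN₃⟩ := exists_nat_ge (8 / ε)
  refine ⟨N₁ + N₂ + N₃, fun N hN hNE Y X hYX hXN => ?_⟩
  have hN3 : 8 / ε ≤ N := hN₃.trans (by exact_mod_cast (by omega : N₃ ≤ N))
  have ha' : ∀ i, a i - 1 + 1 = a i := fun i => by
    have := ha i
    omega
  have hj0 : (0 : ℝ) < (j : ℝ) + 1 := by positivity
  have hj1 : 1 / ((j : ℝ) + 1) ≤ ε / 8 := by
    rw [div_le_iff₀ hj0]
    have h3 : 8 / ε ≤ (j : ℝ) + 1 := by linarith
    rw [div_le_iff₀ hε] at h3
    linarith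
  have h2 := norm_le (fun i => f (s i)) a b (α t) (fun i => hf _) X Y hYX (1 / ((j : ℝ) + 1) * N) (by
    intro θ' hθ' y hy
    by_contra hcon
    rw [not_le] at hcon
    apply hNE
    rcases hθ' with rfl | rfl
    · apply hN₁ N (by omega)
      refine ⟨y, by omega, ?_⟩
      simp only [ha', if_true]
      exact hcon
    · apply hN₂ N (by omega)
      refine ⟨y, by omega, ?_⟩
      simp only [ha', Bool.false_eq_true, if_false]
      exact hcon)
  refine h2.trans ?_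
  have h3 : 1 / ((j : ℝ) + 1) * N ≤ ε / 8 * N := mul_le_mul_of_nonneg_right hj1 (Nat.cast_nonneg N)
  have h4 : 8 ≤ ε * N := by
    rw [div_le_iff₀ hε] at hN3
    linarith
  linarith

end Pool.Agent.P8H6.Irr
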